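import Mathlib

/-!
Finiteness of the supremum in Kane's quantity for a weight that is nonzero almost everywhere.
-/

namespace Pool.Agent.P.MP_8220a0_an

open Finset Real MeasureTheory

/-- The trigonometric polynomial with given coefficients. -/
noncomputable def tpL (n : ℕ) : ((Fin (n + 1) → ℝ) × (Fin (n + 1) → ℝ)) →ₗ[ℝ] (ℝ → ℝ) where
  toFun v θ := ∑ j : Fin (n + 1), (v.1 j * cos (j * θ) + v.2 j * sin (j * θ))
  map_add' v w := by
    ext θ
    simp only [Prod.fst_add, Prod.snd_add, Pi.add_apply, ← sum_add_distrib]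
    exact sum_congr rfl fun j _ => by ring
  map_smul' c v := by
    ext θ
    simp only [Prod.smul_fst, Prod.smul_snd, Pi.smul_apply, smul_eq_mul, RingHom.id_apply, mul_sum]
    exact sum_congr rfl fun j _ => by ring

lemma tpL_apply (n : ℕ) (v : (Fin (n + 1) → ℝ) × (Fin (n + 1) → ℝ)) :
    tpL n v = fun θ => ∑ j : Fin (n + 1), (v.1 j * cos (j * θ) + v.2 j * sin (j * θ)) := rfl

lemma tpL_continuous (n : ℕ) (v : (Fin (n + 1) → ℝ) × (Fin (n + 1) → ℝ)) :
    Continuous (tpL n v) := by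
  rw [tpL_apply]
  fun_prop

lemma tpL_periodic (n : ℕ) (v : (Fin (n + 1) → ℝ) × (Fin (n + 1) → ℝ)) :
    Function.Periodic (tpL n v) (2 * π) := fun θ => by
  simp only [tpL_apply, mul_add, cos_add_nat_mul_two_pi, sin_add_nat_mul_two_pi]

lemma tpL_deriv_le (n : ℕ) (v : (Fin (n + 1) → ℝ) × (Fin (n + 1) → ℝ)) (θ : ℝ) :
    |deriv (tpL n v) θ| ≤ (n + 1) * (2 * n * ‖v‖) := by
  have h : HasDerivAt (tpL n v)
      (∑ j : Fin (n + 1), (v.1 j * (-sin (j * θ) * j) + v.2 j * (cos (j * θ) * j))) θ := by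
    rw [tpL_apply]
    refine HasDerivAt.fun_sum fun j _ => ?_
    have h0 : HasDerivAt (fun θ : ℝ => ((j : ℕ) : ℝ) * θ) j θ := by
      simpa using (hasDerivAt_id θ).const_mul ((j : ℕ) : ℝ)
    exact (h0.cos.const_mul _).add (h0.sin.const_mul _)
  rw [h.deriv]
  refine (abs_sum_le_sum_abs _ _).trans ((sum_le_sum (g := fun _ => 2 * n * ‖v‖)
    fun j _ => ?_).trans (by simp))
  have h1 : |v.1 j| ≤ ‖v‖ := (norm_le_pi_norm v.1 j).trans (norm_fst_le v)
  have h2 : |v.2 j| ≤ ‖v‖ := (norm_le_pi_norm v.2 j).trans (norm_snd_le v)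
  have h3 : ((j : ℕ) : ℝ) ≤ n := by exact_mod_cast Nat.lt_succ_iff.1 j.2
  have h4 : (0 : ℝ) ≤ (j : ℕ) := Nat.cast_nonneg _
  have h5 : |-sin (j * θ) * j| ≤ n := by
    rw [abs_mul, abs_neg, abs_of_nonneg h4]
    nlinarith [abs_sin_le_one (j * θ), abs_nonneg (sin (j * θ))]
  have h6 : |cos (j * θ) * j| ≤ n := by
    rw [abs_mul, abs_of_nonneg h4]
    nlinarith [abs_cos_le_one (j * θ), abs_nonneg (cos (j * θ))]
  refine (abs_add_le _ _).trans ?_
  rw [abs_mul (v.1 j), abs_mul (v.2 j)]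
  have h7 := mul_le_mul h1 h5 (abs_nonneg _) (norm_nonneg _)
  have h8 := mul_le_mul h2 h6 (abs_nonneg _) (norm_nonneg _)
  linarith

lemma integral_pos_of_ae {W p : ℝ → ℝ} (hW : IntervalIntegrable W volume (-π) π)
    (hW0 : ∀ θ, 0 ≤ W θ) (hae : ∀ᵐ θ, W θ ≠ 0) (hp : Continuous p)
    (hper : Function.Periodic p (2 * π)) (hp0 : ∀ θ, 0 ≤ p θ) (hne : p ≠ 0) :
    0 < ∫ θ in (-π)..π, p θ * W θ := by
  have hle : -π ≤ π := by linarith [pi_pos]
  refine lt_of_le_of_ne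
    (intervalIntegral.integral_nonneg hle fun θ _ => mul_nonneg (hp0 θ) (hW0 θ)) fun h => hne ?_
  have h1 := (intervalIntegral.integral_eq_zero_iff_of_le_of_nonneg_ae hle
    (Filter.Eventually.of_forall fun θ => mul_nonneg (hp0 θ) (hW0 θ))
    (hW.continuousOn_mul hp.continuousOn)).1 h.symm
  have h2 : p =ᵐ[volume.restrict (Set.Ioc (-π) π)] 0 := by
    filter_upwards [h1, ae_restrict_of_ae hae] with θ a1 a2
    exact (mul_eq_zero.1 a1).resolve_right a2
  have h3 := Measure.eqOn_Ioc_of_ae_eq volume h2 hp.continuousOn continuousOn_const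
  ext θ
  obtain ⟨y, hy, e⟩ := hper.exists_mem_Ioc (by positivity) θ (-π)
  rw [e]
  exact h3 ⟨hy.1, by linarith [hy.2]⟩

theorem exists_ratio_bound (n : ℕ) {W : ℝ → ℝ} (hW : IntervalIntegrable W volume (-π) π)
    (hW0 : ∀ θ, 0 ≤ W θ) (hae : ∀ᵐ θ, W θ ≠ 0) :
    ∃ C : ℝ, 0 ≤ C ∧ ∀ v, (∀ θ, 0 ≤ tpL n v θ) →
      ∫ θ in (-π)..π, |deriv (tpL n v) θ| ≤ C * ∫ θ in (-π)..π, tpL n v θ * W θ := by
  obtain ⟨S, hS⟩ := (LinearMap.ker (tpL n)).exists_isCompl
  let Λ : ((Fin (n + 1) → ℝ) × (Fin (n + 1) → ℝ)) →ₗ[ℝ] ℝ :=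
    { toFun := fun v => ∫ θ in (-π)..π, tpL n v θ * W θ
      map_add' := fun v w => by
        simp only [map_add, Pi.add_apply, add_mul]
        exact intervalIntegral.integral_add
          (hW.continuousOn_mul (tpL_continuous n v).continuousOn)
          (hW.continuousOn_mul (tpL_continuous n w).continuousOn)
      map_smul' := fun c v => by
        simp only [map_smul, Pi.smul_apply, smul_eq_mul, mul_assoc,
          intervalIntegral.integral_const_mul, RingHom.id_apply] }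
  have hΛ : ∀ v, Λ v = ∫ θ in (-π)..π, tpL n v θ * W θ := fun _ => rfl
  let Z : Set S := Metric.sphere 0 1 ∩ ⋂ θ : ℝ, {s | 0 ≤ tpL n s θ}
  have hZ : IsCompact Z := (isCompact_sphere 0 1).inter_right (isClosed_iInter fun θ =>
    isClosed_le continuous_const
      (((LinearMap.proj θ) ∘ₗ (tpL n) ∘ₗ S.subtype).continuous_of_finiteDimensional))
  obtain ⟨m, hm0, hm⟩ := hZ.exists_forall_le' (f := fun s : S => Λ s) (a := 0)
    (Λ ∘ₗ S.subtype).continuous_of_finiteDimensional.continuousOn (by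
      rintro s ⟨h1, h2⟩
      rw [hΛ]
      refine integral_pos_of_ae hW hW0 hae (tpL_continuous n _) (tpL_periodic n _)
        (Set.mem_iInter.1 h2) fun h => ?_
      have h3 : (s : (Fin (n + 1) → ℝ) × (Fin (n + 1) → ℝ)) = 0 :=
        Submodule.disjoint_def.1 hS.disjoint _ (LinearMap.mem_ker.2 h) s.2
      have h4 : s = 0 := Subtype.ext h3
      rw [h4] at h1
      simp at h1)
  refine ⟨(n + 1) * (2 * n) * (2 * π) / m, by positivity, fun v hv => ?_⟩
  obtain ⟨u, s, hus, -⟩ := Submodule.existsUnique_add_of_isCompl hS v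
  have e : tpL n v = tpL n s := by
    rw [← hus, map_add, LinearMap.mem_ker.1 u.2, zero_add]
  rw [e] at hv ⊢
  have h1 := intervalIntegral.norm_integral_le_of_norm_le_const (a := -π) (b := π)
    (f := fun θ => |deriv (tpL n s) θ|) (C := (n + 1) * (2 * n * ‖s‖))
    (fun θ _ => by rw [Real.norm_eq_abs, abs_abs]; exact tpL_deriv_le n s θ)
  rw [Real.norm_eq_abs, show π - -π = 2 * π by ring, abs_of_pos (by positivity : 0 < 2 * π)] at h1
  have h2 : m * ‖s‖ ≤ Λ s := by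
    rcases eq_or_ne s 0 with rfl | hs
    · simp
    · have hn : 0 < ‖s‖ := norm_pos_iff.2 hs
      have h3 := hm (‖s‖⁻¹ • s) ⟨by
        rw [mem_sphere_zero_iff_norm, norm_smul, norm_inv, norm_norm, inv_mul_cancel₀ hn.ne'],
        Set.mem_iInter.2 fun θ => by
        show 0 ≤ tpL n ((‖s‖⁻¹ • s : S) : (Fin (n + 1) → ℝ) × (Fin (n + 1) → ℝ)) θ
        rw [Submodule.coe_smul, map_smul, Pi.smul_apply, smul_eq_mul]
        exact mul_nonneg (inv_nonneg.2 hn.le) (hv θ)⟩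
      rw [Submodule.coe_smul, map_smul, smul_eq_mul, ← div_eq_inv_mul, le_div_iff₀ hn] at h3
      exact h3
  rw [← hΛ]
  refine (le_abs_self _).trans (h1.trans ?_)
  rw [div_mul_eq_mul_div, le_div_iff₀ hm0]
  have h4 := mul_le_mul_of_nonneg_left h2
    (show (0 : ℝ) ≤ (n + 1) * (2 * n) * (2 * π) by positivity)
  linarith

end Pool.Agent.P.MP_8220a0_an
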