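import Pool.Agent.P.MP_8220a0_an.Core

/-!
Arcsine weights of arcs and equal-weight quadrature on an arc with a small error functional.
-/

namespace Pool.Agent.P.MP_8220a0_an

open Polynomial Finset Real MeasureTheory

lemma exists_cheb (n : ℕ) (q : ℝ[X]) (hq : q.natDegree ≤ n) :
    ∃ c : ℕ → ℝ, q = ∑ m ∈ range (n + 1), c m • Chebyshev.T ℝ (m : ℤ) := by
  have hmem : q ∈ degreeLT ℝ (n + 1) := by
    rw [mem_degreeLT]
    exact lt_of_le_of_lt (degree_le_of_natDegree_le hq) (by exact_mod_cast Nat.lt_succ_self n)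
  rw [← Sequence.span_degreeLT (Chebyshev.chebyshevTsequence ℝ) (by simp),
    show Set.Iio (n + 1) = Finset.range (n + 1) by simp,
    Submodule.mem_span_image_finset_iff_exists_fun'] at hmem
  obtain ⟨c, hc⟩ := hmem
  exact ⟨c, hc.symm⟩

/-- Chebyshev polynomials of the interval `[1 - 2ρ, 1]`. -/
noncomputable def Ub (ρ : ℝ) (m : ℕ) : ℝ[X] :=
  (Chebyshev.T ℝ (m : ℤ)).comp (C ρ⁻¹ * (X - C (1 - ρ)))

lemma Ub_zero (ρ : ℝ) : Ub ρ 0 = 1 := by simp [Ub]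

lemma Ub_eval {ρ : ℝ} (hρ : ρ ≠ 0) (m : ℕ) (φ : ℝ) :
    (Ub ρ m).eval (1 - ρ + ρ * cos φ) = cos (m * φ) := by
  have : ρ⁻¹ * (1 - ρ + ρ * cos φ - (1 - ρ)) = cos φ := by field_simp; ring
  simp only [Ub, eval_comp, eval_mul, eval_C, eval_sub, eval_X, this, Chebyshev.T_real_cos]
  simp

lemma exists_Ub {ρ : ℝ} (hρ : ρ ≠ 0) (n : ℕ) (q : ℝ[X]) (hq : q.natDegree ≤ n) :
    ∃ c : ℕ → ℝ, q = ∑ m ∈ range (n + 1), c m • Ub ρ m := by
  have h1 : (C ρ * X + C (1 - ρ) : ℝ[X]).natDegree ≤ 1 := natDegree_linear_le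
  obtain ⟨c, hc⟩ := exists_cheb n (q.comp (C ρ * X + C (1 - ρ)))
    (natDegree_comp_le.trans (by nlinarith))
  refine ⟨c, ?_⟩
  have h2 : (C ρ * X + C (1 - ρ) : ℝ[X]).comp (C ρ⁻¹ * (X - C (1 - ρ))) = X := by
    simp only [add_comp, mul_comp, C_comp, X_comp]
    rw [← mul_assoc, ← C_mul, mul_inv_cancel₀ hρ]
    simp
  have h3 := congrArg (fun p : ℝ[X] => p.comp (C ρ⁻¹ * (X - C (1 - ρ)))) hc
  simp only [comp_assoc, h2, comp_X] at h3
  rw [h3, Polynomial.sum_comp]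
  refine sum_congr rfl fun m _ => ?_
  rw [smul_comp]
  rfl

lemma arc_quad {ρ : ℝ} (hρ : ρ ≠ 0) (n M L : ℕ) (ε : ℝ) (Λ : ℝ[X] →ₗ[ℝ] ℝ) (h1 : Λ 1 = M)
    (hε : n * ε < 1) (hL : 1 ≤ L) (hM : L * (2 * n + 1) ≤ M)
    (hΛ : ∀ m, 1 ≤ m → m ≤ n → |Λ (Ub ρ m)| ≤ ε * L) :
    ∃ Φ : Multiset ℝ, Multiset.card Φ = M ∧ ∀ q : ℝ[X], q.natDegree ≤ n →
      (Φ.map fun φ => q.eval (1 - ρ + ρ * cos φ)).sum = Λ q := by
  obtain ⟨Φ, hc, hΦ⟩ := core_group (fun m => Λ (Ub ρ m)) n M L ε hε hL hM hΛ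
  refine ⟨Φ, hc, fun q hq => ?_⟩
  obtain ⟨c, rfl⟩ := exists_Ub hρ n q hq
  simp only [eval_finsetSum, eval_smul, smul_eq_mul, Ub_eval hρ, map_sum, map_smul]
  rw [Multiset.sum_map_sum]
  refine sum_congr rfl fun m hm => ?_
  rw [mem_range] at hm
  rw [Multiset.sum_map_mul_left]
  congr 1
  rcases Nat.eq_zero_or_pos m with rfl | h
  · simp [Ub_zero, h1, hc]
  · exact hΦ m h (by omega)

/-- The arcsine functional of the interval `[1 - 2ρ, 1]`. -/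
noncomputable def sig (ρ : ℝ) : ℝ[X] →ₗ[ℝ] ℝ where
  toFun q := π⁻¹ * ∫ φ in (0 : ℝ)..π, q.eval (1 - ρ + ρ * cos φ)
  map_add' p q := by
    simp only [eval_add]
    rw [intervalIntegral.integral_add, mul_add]
    · exact Continuous.intervalIntegrable (by fun_prop) _ _
    · exact Continuous.intervalIntegrable (by fun_prop) _ _
  map_smul' c q := by
    simp only [eval_smul, smul_eq_mul, intervalIntegral.integral_const_mul, RingHom.id_apply]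
    ring

lemma sig_apply (ρ : ℝ) (q : ℝ[X]) :
    sig ρ q = π⁻¹ * ∫ φ in (0 : ℝ)..π, q.eval (1 - ρ + ρ * cos φ) := rfl

lemma sig_one (ρ : ℝ) : sig ρ 1 = 1 := by
  rw [sig_apply]
  simp [pi_ne_zero]

lemma sig_Ub {ρ : ℝ} (hρ : ρ ≠ 0) {m : ℕ} (hm : 1 ≤ m) : sig ρ (Ub ρ m) = 0 := by
  rw [sig_apply]
  simp only [Ub_eval hρ]
  have : (m : ℝ) ≠ 0 := by positivity
  rw [intervalIntegral.integral_comp_mul_left cos this]
  simp

lemma sig_abs_le {ρ : ℝ} (hρ : 0 ≤ ρ) (q : ℝ[X]) (B : ℝ)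
    (h : ∀ x, 1 - 2 * ρ ≤ x → x ≤ 1 → |q.eval x| ≤ B) : |sig ρ q| ≤ B := by
  rw [sig_apply, abs_mul, abs_of_pos (inv_pos.2 pi_pos)]
  have h1 := intervalIntegral.norm_integral_le_of_norm_le_const (a := 0) (b := π) (C := B)
    (f := fun φ => q.eval (1 - ρ + ρ * cos φ)) (fun φ _ => by
      refine h _ ?_ ?_
      · nlinarith [neg_one_le_cos φ]
      · nlinarith [cos_le_one φ])
  rw [Real.norm_eq_abs, sub_zero, abs_of_pos pi_pos] at h1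
  rw [inv_mul_le_iff₀ pi_pos]
  linarith

lemma abs_Ub_le {ρ : ℝ} (hρ : 0 < ρ) (m : ℕ) (x : ℝ) (h1 : 1 - 2 * ρ ≤ x) (h2 : x ≤ 1) :
    |(Ub ρ m).eval x| ≤ 1 := by
  have h3 : x = 1 - ρ + ρ * cos (arccos ((x - 1 + ρ) / ρ)) := by
    rw [cos_arccos]
    · field_simp
      ring
    · rw [le_div_iff₀ hρ]
      linarith
    · rw [div_le_iff₀ hρ]
      linarith
  rw [h3, Ub_eval hρ.ne']
  exact abs_cos_le_one _

/-- Density of the arcsine measure of the arc `cos θ ≥ 1 - 2ρ`. -/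
noncomputable def Wr (ρ θ : ℝ) : ℝ := √((1 + cos θ) / (cos θ - (1 - 2 * ρ)))

lemma Wr_nonneg (ρ θ : ℝ) : 0 ≤ Wr ρ θ := sqrt_nonneg _

lemma Wr_measurable (ρ : ℝ) : Measurable (Wr ρ) := by
  unfold Wr
  fun_prop

lemma arc_integral {ρ : ℝ} (h0 : 0 < ρ) (h1 : ρ < 1) (g : ℝ → ℝ) (hg : Continuous g) :
    IntegrableOn (fun θ => g (cos θ) * Wr ρ θ) (Set.Ioo 0 π) ∧
    ∫ θ in Set.Ioo 0 π, g (cos θ) * Wr ρ θ = ∫ φ in (0 : ℝ)..π, g (1 - ρ + ρ * cos φ) := by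
  set h : ℝ → ℝ := fun φ => arccos (1 - ρ + ρ * cos φ) with hh
  set h' : ℝ → ℝ := fun φ => -(1 / √(1 - (1 - ρ + ρ * cos φ) ^ 2)) * (ρ * (-sin φ)) with hh'
  have hcos : ∀ φ ∈ Set.Ioo (0 : ℝ) π, -1 < cos φ ∧ cos φ < 1 := by
    intro φ hφ
    constructor
    · rw [← cos_pi]
      exact cos_lt_cos_of_nonneg_of_le_pi hφ.1.le le_rfl hφ.2
    · rw [← cos_zero]
      exact cos_lt_cos_of_nonneg_of_le_pi le_rfl hφ.2.le hφ.1
  have hc : ∀ φ ∈ Set.Ioo (0 : ℝ) π, -1 < 1 - ρ + ρ * cos φ ∧ 1 - ρ + ρ * cos φ < 1 := by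
    intro φ hφ
    obtain ⟨a1, a2⟩ := hcos φ hφ
    constructor <;> nlinarith
  have hder : ∀ φ ∈ Set.Ioo (0 : ℝ) π, HasDerivWithinAt h (h' φ) (Set.Ioo 0 π) φ := by
    intro φ hφ
    obtain ⟨a1, a2⟩ := hc φ hφ
    have d1 : HasDerivAt (fun φ => 1 - ρ + ρ * cos φ) (ρ * (-sin φ)) φ :=
      ((hasDerivAt_cos φ).const_mul ρ).const_add (1 - ρ)
    exact ((hasDerivAt_arccos a1.ne' a2.ne).comp φ d1).hasDerivWithinAt
  have hcosh : ∀ φ ∈ Set.Ioo (0 : ℝ) π, cos (h φ) = 1 - ρ + ρ * cos φ := fun φ hφ =>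
    cos_arccos (hc φ hφ).1.le (hc φ hφ).2.le
  have hinj : Set.InjOn h (Set.Ioo 0 π) := by
    intro x hx y hy hxy
    have e := congrArg cos hxy
    rw [hcosh x hx, hcosh y hy] at e
    have e' : cos x = cos y := mul_left_cancel₀ h0.ne' (by linarith)
    exact injOn_cos ⟨hx.1.le, hx.2.le⟩ ⟨hy.1.le, hy.2.le⟩ e'
  have hsub : h '' Set.Ioo 0 π ⊆ Set.Ioo 0 π := by
    rintro _ ⟨φ, hφ, rfl⟩
    exact ⟨arccos_pos.2 (hc φ hφ).2, arccos_lt_pi.2 (hc φ hφ).1⟩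
  have hzero : ∀ θ ∈ Set.Ioo (0 : ℝ) π \ h '' Set.Ioo 0 π, g (cos θ) * Wr ρ θ = 0 := by
    rintro θ ⟨hθ, hn⟩
    obtain ⟨a1, a2⟩ := hcos θ hθ
    have : cos θ - (1 - 2 * ρ) ≤ 0 := by
      by_contra hpos
      push Not at hpos
      have b1 : -1 < (cos θ - 1 + ρ) / ρ := by rw [lt_div_iff₀ h0]; linarith
      have b2 : (cos θ - 1 + ρ) / ρ < 1 := by rw [div_lt_iff₀ h0]; linarith
      refine hn ⟨arccos ((cos θ - 1 + ρ) / ρ), ⟨arccos_pos.2 b2, arccos_lt_pi.2 b1⟩, ?_⟩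
      simp only [hh]
      rw [cos_arccos b1.le b2.le]
      have : 1 - ρ + ρ * ((cos θ - 1 + ρ) / ρ) = cos θ := by field_simp; ring
      rw [this, arccos_cos hθ.1.le hθ.2.le]
    have : Wr ρ θ = 0 := sqrt_eq_zero_of_nonpos (div_nonpos_of_nonneg_of_nonpos (by linarith) this)
    rw [this, mul_zero]
  have hpt : ∀ φ ∈ Set.Ioo (0 : ℝ) π,
      |h' φ| • (g (cos (h φ)) * Wr ρ (h φ)) = g (1 - ρ + ρ * cos φ) := by
    intro φ hφ
    obtain ⟨a1, a2⟩ := hc φ hφ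
    obtain ⟨b1, b2⟩ := hcos φ hφ
    have hs : 0 < sin φ := sin_pos_of_pos_of_lt_pi hφ.1 hφ.2
    have hW : |h' φ| * Wr ρ (h φ) = 1 := by
      unfold Wr
      rw [hcosh φ hφ]
      set c := 1 - ρ + ρ * cos φ with hcdef
      have c1 : 0 < 1 - c ^ 2 := by nlinarith
      have c2 : 0 < c - (1 - 2 * ρ) := by nlinarith
      have c3 : 0 ≤ (1 + c) / (c - (1 - 2 * ρ)) := div_nonneg (by linarith) c2.le
      have c4 : 0 ≤ |h' φ| * √((1 + c) / (c - (1 - 2 * ρ))) := by positivity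
      refine (pow_eq_one_iff_of_nonneg c4 two_ne_zero).1 ?_
      rw [mul_pow, sq_abs, sq_sqrt c3]
      simp only [hh']
      rw [← hcdef, mul_pow, neg_sq, div_pow, sq_sqrt c1.le, mul_pow, neg_sq, sin_sq]
      have c5 : 1 - c ^ 2 = ρ * (1 - cos φ) * (1 + c) := by rw [hcdef]; ring
      have c6 : c - (1 - 2 * ρ) = ρ * (1 + cos φ) := by rw [hcdef]; ring
      rw [c5, c6]
      have : 1 - cos φ ≠ 0 := by linarith
      have : 1 + cos φ ≠ 0 := by linarith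
      have : 1 + c ≠ 0 := by linarith
      field_simp
      ring
    rw [smul_eq_mul, hcosh φ hφ, mul_left_comm, hW, mul_one]
  have hmeas : MeasurableSet (Set.Ioo (0 : ℝ) π) := measurableSet_Ioo
  constructor
  · refine IntegrableOn.of_forall_sdiff_eq_zero (s := h '' Set.Ioo 0 π) ?_ hmeas hzero
    rw [integrableOn_image_iff_integrableOn_abs_deriv_smul hmeas hder hinj]
    refine IntegrableOn.congr_fun (f := fun φ => g (1 - ρ + ρ * cos φ)) ?_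
      (fun φ hφ => (hpt φ hφ).symm) hmeas
    exact ((Continuous.integrableOn_Icc (by fun_prop))).mono_set Set.Ioo_subset_Icc_self
  · rw [setIntegral_eq_of_subset_of_forall_sdiff_eq_zero hmeas hsub hzero,
      integral_image_eq_integral_abs_deriv_smul hmeas hder hinj,
      setIntegral_congr_fun hmeas hpt, intervalIntegral.integral_of_le pi_pos.le,
      integral_Ioc_eq_integral_Ioo]

end Pool.Agent.P.MP_8220a0_an
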