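import Mathlib

/-!
Points on the unit circle with prescribed small power sums.
-/

namespace Pool.Agent.P.MP_8220a0_an

open Polynomial Finset Real

/-- Coefficients determined by Newton's identities from the power sums `s`. -/
noncomputable def nc (s : ℕ → ℝ) : ℕ → ℝ
  | 0 => 1
  | m + 1 => -(1 / ((m : ℝ) + 1)) * ∑ i : Fin (m + 1), nc s i * s (m + 1 - i)
decreasing_by exact i.2

lemma nc_zero (s : ℕ → ℝ) : nc s 0 = 1 := by rw [nc]

lemma nc_succ (s : ℕ → ℝ) (m : ℕ) :
    ((m : ℝ) + 1) * nc s (m + 1) = -∑ i ∈ range (m + 1), nc s i * s (m + 1 - i) := by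
  rw [nc, ← Fin.sum_univ_eq_sum_range (fun i => nc s i * s (m + 1 - i)) (m + 1)]
  have : (m : ℝ) + 1 ≠ 0 := by positivity
  field_simp

lemma nc_bound (s : ℕ → ℝ) (n : ℕ) (ε : ℝ) (hε1 : ε ≤ 1)
    (hs : ∀ j, 1 ≤ j → j ≤ n → |s j| ≤ ε) : ∀ m, 1 ≤ m → m ≤ n → |nc s m| ≤ ε := by
  intro m
  induction m using Nat.strong_induction_on with
  | _ m ih =>
    intro h1 h2
    obtain ⟨m, rfl⟩ : ∃ m', m = m' + 1 := ⟨m - 1, by omega⟩
    have hpos : (0 : ℝ) < (m : ℝ) + 1 := by positivity
    have h3 : ∀ i ∈ range (m + 1), |nc s i * s (m + 1 - i)| ≤ ε := by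
      intro i hi
      rw [mem_range] at hi
      have h4 : |nc s i| ≤ 1 := by
        rcases Nat.eq_zero_or_pos i with rfl | h
        · simp [nc_zero]
        · exact (ih i hi h (by omega)).trans hε1
      have h5 := hs (m + 1 - i) (by omega) (by omega)
      rw [abs_mul]
      calc |nc s i| * |s (m + 1 - i)| ≤ 1 * |s (m + 1 - i)| :=
            mul_le_mul_of_nonneg_right h4 (abs_nonneg _)
        _ ≤ ε := by rw [one_mul]; exact h5
    have h6 : |((m : ℝ) + 1) * nc s (m + 1)| ≤ ((m : ℝ) + 1) * ε := by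
      rw [nc_succ, abs_neg]
      refine (abs_sum_le_sum_abs _ _).trans ((sum_le_sum h3).trans ?_)
      simp
    rw [abs_mul, abs_of_pos hpos] at h6
    exact le_of_mul_le_mul_left h6 hpos

/-- Newton's identities for the coefficients of `∏ (X - z i)`. -/
lemma newton {M : ℕ} (z : Fin M → ℂ) (a : ℕ → ℂ) (n : ℕ) (hn : n ≤ M)
    (ha : ∀ m, m ≤ n → (∏ i, (X - C (z i))).coeff (M - m) = a m) (m : ℕ) (hm : m + 1 ≤ n) :
    ((m : ℂ) + 1) * a (m + 1) = -∑ i ∈ range (m + 1), a i * ∑ j, z j ^ (m + 1 - i) := by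
  have hcard : Multiset.card (univ.val.map z) = M := by simp
  have he : ∀ k, k ≤ n → a k = (-1) ^ k * (univ.val.map z).esymm k := by
    intro k hk
    have h1 := Multiset.prod_X_sub_C_coeff (univ.val.map z) (k := M - k) (by rw [hcard]; omega)
    rw [hcard, show M - (M - k) = k by omega, Multiset.map_map] at h1
    rw [← ha k hk, ← h1]
    rfl
  have h2 := congrArg (MvPolynomial.aeval z) (MvPolynomial.mul_esymm_eq_sum (Fin M) ℂ (m + 1))
  simp only [map_mul, map_natCast, map_pow, map_neg, map_one, map_sum,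
    MvPolynomial.aeval_esymm_eq_multiset_esymm, MvPolynomial.psum, MvPolynomial.aeval_X] at h2
  rw [sum_filter, Finset.Nat.sum_antidiagonal_eq_sum_range_succ_mk, sum_range_succ] at h2
  simp only [lt_irrefl, if_false, add_zero] at h2
  rw [he (m + 1) hm]
  have h3 : ∑ i ∈ range (m + 1), a i * ∑ j, z j ^ (m + 1 - i) =
      ∑ i ∈ range (m + 1), if i < m + 1 then
        (-1) ^ i * (univ.val.map z).esymm i * ∑ j, z j ^ (m + 1 - i) else 0 := by
    refine sum_congr rfl fun i hi => ?_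
    rw [mem_range] at hi
    rw [if_pos hi, he i (by omega)]
  rw [h3]
  push_cast at h2
  have h4 : ((-1 : ℂ)) ^ (m + 1) * (-1) ^ (m + 1 + 1) = -1 := by
    rw [← pow_add, show m + 1 + (m + 1 + 1) = 2 * (m + 1) + 1 by ring, pow_succ, pow_mul]
    simp
  linear_combination (-1) ^ (m + 1) * h2 + (∑ i ∈ range (m + 1), if i < m + 1 then
        (-1) ^ i * (univ.val.map z).esymm i * ∑ j, z j ^ (m + 1 - i) else 0) * h4

/-- Sign changes of the real form of the self-reciprocal polynomial. -/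
lemma exists_zeros (a : ℕ → ℝ) (n M : ℕ) (ha0 : a 0 = 1)
    (ha : ∑ m ∈ range n, |a (m + 1)| < 1) (k : ℕ) (hM : 0 < M) :
    ∃ φ ∈ Set.Ioo (2 * π * k / M) (2 * π * (k + 1) / M),
      ∑ m ∈ range (n + 1), a m * cos (((M : ℝ) / 2 - m) * φ) = 0 := by
  set g : ℝ → ℝ := fun φ => ∑ m ∈ range (n + 1), a m * cos (((M : ℝ) / 2 - m) * φ) with hg
  have hMr : (0 : ℝ) < M := by exact_mod_cast hM
  have hcont : Continuous g := by
    simp only [hg]
    fun_prop
  have hsign : ∀ j : ℕ, 0 < (-1) ^ j * g (2 * π * j / M) := by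
    intro j
    simp only [hg]
    rw [sum_range_succ', ha0]
    have e : ((M : ℝ) / 2 - ((0 : ℕ) : ℝ)) * (2 * π * j / M) = j * π := by
      push_cast
      field_simp
      ring
    rw [e, cos_nat_mul_pi, mul_add, one_mul, ← pow_add, ← two_mul, pow_mul]
    have h1 : |(-1) ^ j * ∑ m ∈ range n, a (m + 1) *
        cos (((M : ℝ) / 2 - ((m + 1 : ℕ) : ℝ)) * (2 * π * j / M))| < 1 := by
      rw [abs_mul, abs_pow, abs_neg, abs_one, one_pow, one_mul]
      refine lt_of_le_of_lt ((abs_sum_le_sum_abs _ _).trans (sum_le_sum fun m _ => ?_)) ha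
      rw [abs_mul]
      exact mul_le_of_le_one_right (abs_nonneg _) (abs_cos_le_one _)
    have := (abs_lt.1 h1).1
    simp only [even_two, Even.neg_pow, one_pow]
    linarith
  have hle : 2 * π * k / M ≤ 2 * π * (k + 1) / M := by
    have := pi_pos
    gcongr
    linarith
  have h1 := hsign k
  have h2 := hsign (k + 1)
  push_cast at h2
  have hc : ContinuousOn (fun x => (-1) ^ k * g x)
      (Set.Icc (2 * π * k / M) (2 * π * (k + 1) / M)) := (continuous_const.mul hcont).continuousOn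
  have h3 : (0 : ℝ) ∈ Set.Ioo ((-1) ^ k * g (2 * π * (k + 1) / M)) ((-1) ^ k * g (2 * π * k / M)) := by
    refine ⟨?_, h1⟩
    rw [pow_succ] at h2
    linarith
  obtain ⟨φ, hφ, h4⟩ := intermediate_value_Ioo' hle hc h3
  refine ⟨φ, hφ, ?_⟩
  have h5 : ((-1 : ℝ)) ^ k ≠ 0 := pow_ne_zero _ (by norm_num)
  exact (mul_eq_zero.1 h4).resolve_left h5

theorem core (s : ℕ → ℝ) (n M : ℕ) (ε : ℝ) (hε : n * ε < 1) (hM : 2 * n + 1 ≤ M)
    (hs : ∀ j, 1 ≤ j → j ≤ n → |s j| ≤ ε) :
    ∃ Φ : Multiset ℝ, Multiset.card Φ = M ∧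
      ∀ j, 1 ≤ j → j ≤ n → (Φ.map fun φ => cos (j * φ)).sum = s j := by
  rcases Nat.eq_zero_or_pos n with rfl | hn
  · exact ⟨Multiset.replicate M 0, by simp, fun j h1 h2 => by omega⟩
  have hn1 : (1 : ℝ) ≤ n := by exact_mod_cast hn
  have hε0 : 0 ≤ ε := (abs_nonneg _).trans (hs 1 le_rfl hn)
  have hε1 : ε ≤ 1 := by nlinarith
  have hb := nc_bound s n ε hε1 hs
  have hsum : ∑ m ∈ range n, |nc s (m + 1)| < 1 := by
    refine lt_of_le_of_lt (sum_le_sum (g := fun _ => ε) fun m hm => ?_) (by simpa using hε)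
    rw [mem_range] at hm
    exact hb _ (by omega) (by omega)
  have hM0 : 0 < M := by omega
  have hMr : (0 : ℝ) < M := by exact_mod_cast hM0
  choose φ hφ1 hφ2 using fun k => exists_zeros (nc s) n M (nc_zero s) hsum k hM0
  let z : Fin M → ℂ := fun k => Complex.exp (φ k * Complex.I)
  have hmono : StrictMono φ := strictMono_nat_of_lt_succ fun k => by
    have h1 := (hφ1 k).2
    have h2 := (hφ1 (k + 1)).1
    push_cast at h2
    linarith
  have hrange : ∀ k : Fin M, 0 < φ k ∧ φ k < 2 * π := by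
    intro k
    have h1 := hφ1 k
    have hp := pi_pos
    constructor
    · exact lt_of_le_of_lt (by positivity) h1.1
    · refine lt_of_lt_of_le h1.2 ?_
      rw [div_le_iff₀ hMr]
      have : ((k : ℕ) : ℝ) + 1 ≤ M := by exact_mod_cast k.2
      gcongr
  have hinj : Function.Injective z := by
    intro i j hij
    obtain ⟨t, ht⟩ := Complex.exp_eq_exp_iff_exists_int.1 hij
    have h1 : φ i = φ j + t * (2 * π) := by
      have := congrArg Complex.im ht
      simpa using this
    have hi := hrange i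
    have hj := hrange j
    have hp := pi_pos
    have h2 : (t : ℝ) < 1 := by nlinarith
    have h3 : (-1 : ℝ) < t := by nlinarith
    have h4 : t = 0 := by
      have a1 : t < 1 := by exact_mod_cast h2
      have a2 : -1 < t := by exact_mod_cast h3
      omega
    rw [h4] at h1
    exact Fin.ext (hmono.injective (by simpa using h1))
  let P : ℂ[X] := ∑ m ∈ range (n + 1), C ((nc s m : ℝ) : ℂ) * (X ^ m + X ^ (M - m))
  have hcoeff : ∀ d, P.coeff d = ∑ m ∈ range (n + 1),
      ((nc s m : ℝ) : ℂ) * ((if d = m then 1 else 0) + (if d = M - m then 1 else 0)) := by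
    intro d
    simp only [P, finsetSum_coeff, coeff_C_mul, coeff_add, coeff_X_pow]
  have hc1 : ∀ m, m ≤ n → P.coeff (M - m) = nc s m := by
    intro m hm
    rw [hcoeff, sum_eq_single m]
    · rw [if_neg (by omega), if_pos rfl]
      simp
    · intro b hb hbm
      rw [mem_range] at hb
      rw [if_neg (by omega), if_neg (by omega)]
      simp
    · intro h
      exact absurd (mem_range.2 (by omega)) h
  have hc2 : ∀ d, M < d → P.coeff d = 0 := by
    intro d hd
    rw [hcoeff]
    refine sum_eq_zero fun m hm => ?_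
    rw [mem_range] at hm
    rw [if_neg (by omega), if_neg (by omega)]
    simp
  have hroot : ∀ k, P.eval (z k) = 0 := by
    intro k
    have h1 : P.eval (z k) = Complex.exp (((M : ℝ) / 2 * φ k : ℝ) * Complex.I) * 2 *
        ((∑ m ∈ range (n + 1), nc s m * cos (((M : ℝ) / 2 - m) * φ k) : ℝ) : ℂ) := by
      simp only [P, eval_finsetSum, eval_mul, eval_C, eval_add, eval_pow, eval_X]
      rw [Complex.ofReal_sum, mul_sum]
      refine sum_congr rfl fun m hm => ?_
      rw [mem_range] at hm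
      simp only [z]
      rw [← Complex.exp_nat_mul, ← Complex.exp_nat_mul, Complex.ofReal_mul (nc s m), Complex.ofReal_cos,
        Nat.cast_sub (by omega : m ≤ M)]
      have h2 := Complex.two_cos ((((M : ℝ) / 2 - m) * φ k : ℝ) : ℂ)
      have h3 : Complex.exp (((M : ℝ) / 2 * φ k : ℝ) * Complex.I) *
          Complex.exp ((((M : ℝ) / 2 - m) * φ k : ℝ) * Complex.I) =
          Complex.exp (((M : ℂ) - m) * (φ k * Complex.I)) := by
        rw [← Complex.exp_add]
        congr 1
        push_cast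
        ring
      have h4 : Complex.exp (((M : ℝ) / 2 * φ k : ℝ) * Complex.I) *
          Complex.exp (-((((M : ℝ) / 2 - m) * φ k : ℝ) : ℂ) * Complex.I) =
          Complex.exp ((m : ℂ) * (φ k * Complex.I)) := by
        rw [← Complex.exp_add]
        congr 1
        push_cast
        ring
      rw [← h3, ← h4]
      linear_combination (-(nc s m : ℂ)) *
        Complex.exp (((M : ℝ) / 2 * φ k : ℝ) * Complex.I) * h2
    rw [h1, hφ2 k]
    simp
  have hQm : (∏ i, (X - C (z i)) : ℂ[X]).Monic := monic_prod_of_monic _ _ fun i _ => monic_X_sub_C _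
  have hQd : (∏ i, (X - C (z i)) : ℂ[X]).natDegree = M := by
    rw [natDegree_prod_of_monic _ _ fun i _ => monic_X_sub_C _]
    simp
  have hPQ : (∏ i, (X - C (z i)) : ℂ[X]) = P := by
    refine Polynomial.eq_of_degree_sub_lt_of_eval_index_eq (v := z) univ hinj.injOn ?_ ?_
    · rw [card_univ, Fintype.card_fin, degree_lt_iff_coeff_zero]
      intro d hd
      rw [coeff_sub]
      rcases eq_or_lt_of_le hd with rfl | hd'
      · have h1 := hc1 0 (Nat.zero_le _)
        rw [Nat.sub_zero, nc_zero] at h1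
        have h2 := hQm.coeff_natDegree
        rw [hQd] at h2
        rw [h1, h2]
        simp
      · rw [hc2 d hd', coeff_eq_zero_of_natDegree_lt (by rw [hQd]; exact hd')]
        simp
    · intro i _
      rw [hroot, eval_prod]
      exact prod_eq_zero (mem_univ i) (by simp)
  have hnew := newton z (fun m => ((nc s m : ℝ) : ℂ)) n (by omega)
    (fun m hm => by rw [hPQ, hc1 m hm])
  have hps : ∀ j, 1 ≤ j → j ≤ n → ∑ i, z i ^ j = (s j : ℂ) := by
    intro j
    induction j using Nat.strong_induction_on with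
    | _ j ih =>
      intro h1 h2
      obtain ⟨m, rfl⟩ : ∃ m', j = m' + 1 := ⟨j - 1, by omega⟩
      have h3 := hnew m h2
      have h4 := congrArg (fun x : ℝ => (x : ℂ)) (nc_succ s m)
      push_cast at h4
      rw [h4, sum_range_succ', sum_range_succ', nc_zero] at h3
      have h5 : ∑ i ∈ range m, ((nc s (i + 1) : ℝ) : ℂ) * ∑ j, z j ^ (m + 1 - (i + 1)) =
          ∑ i ∈ range m, ((nc s (i + 1) : ℝ) : ℂ) * (s (m + 1 - (i + 1)) : ℂ) := by
        refine sum_congr rfl fun i hi => ?_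
        rw [mem_range] at hi
        rw [ih _ (by omega) (by omega) (by omega)]
      rw [h5] at h3
      simpa using h3.symm
  refine ⟨univ.val.map fun k : Fin M => φ k, by simp, fun j h1 h2 => ?_⟩
  have h3 := congrArg Complex.re (hps j h1 h2)
  rw [Complex.re_sum, Complex.ofReal_re] at h3
  rw [Multiset.map_map, ← h3]
  refine sum_congr rfl fun i _ => ?_
  simp only [z, Function.comp]
  rw [← Complex.exp_nat_mul, ← mul_assoc, ← Complex.ofReal_natCast, ← Complex.ofReal_mul,
    Complex.exp_ofReal_mul_I_re]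

theorem core_group (s : ℕ → ℝ) (n M L : ℕ) (ε : ℝ) (hε : n * ε < 1) (hL : 1 ≤ L)
    (hM : L * (2 * n + 1) ≤ M) (hs : ∀ j, 1 ≤ j → j ≤ n → |s j| ≤ ε * L) :
    ∃ Φ : Multiset ℝ, Multiset.card Φ = M ∧
      ∀ j, 1 ≤ j → j ≤ n → (Φ.map fun φ => cos (j * φ)).sum = s j := by
  obtain ⟨L, rfl⟩ : ∃ L', L = L' + 1 := ⟨L - 1, by omega⟩
  have hLr : (0 : ℝ) < ((L + 1 : ℕ) : ℝ) := by positivity
  have hs' : ∀ j, 1 ≤ j → j ≤ n → |s j / ((L + 1 : ℕ) : ℝ)| ≤ ε := fun j h1 h2 => by
    rw [abs_div, abs_of_pos hLr, div_le_iff₀ hLr]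
    exact hs j h1 h2
  obtain ⟨Φ₁, a1, a2⟩ := core _ n (2 * n + 1) ε hε le_rfl hs'
  obtain ⟨Φ₂, b1, b2⟩ := core _ n (M - L * (2 * n + 1)) ε hε (by
    rw [add_mul, one_mul] at hM
    omega) hs'
  refine ⟨L • Φ₁ + Φ₂, ?_, fun j h1 h2 => ?_⟩
  · rw [Multiset.card_add, Multiset.card_nsmul, a1, b1]
    rw [add_mul, one_mul] at hM
    omega
  · rw [Multiset.map_add, Multiset.map_nsmul, Multiset.sum_add, Multiset.sum_nsmul, a2 j h1 h2,
      b2 j h1 h2, nsmul_eq_mul]
    push_cast at hLr ⊢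
    field_simp

end Pool.Agent.P.MP_8220a0_an
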