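import Pool.Agent.P.MP_8220a0_an.Arc

/-!
Equal-weight quadrature on an interval for every functional that dominates a polynomial multiple
of the arcsine functional on nonnegative polynomials.
-/

namespace Pool.Agent.P.MP_8220a0_an

open Polynomial Finset Real MeasureTheory

lemma int_cos (z : ℤ) : ∫ φ in (0 : ℝ)..π, cos (z * φ) = if z = 0 then π else 0 := by
  by_cases hz : z = 0
  · simp [hz]
  · have : (z : ℝ) ≠ 0 := by exact_mod_cast hz
    rw [if_neg hz, intervalIntegral.integral_comp_mul_left cos this]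
    simp

lemma sig_Ub_mul {ρ : ℝ} (hρ : ρ ≠ 0) (l m : ℕ) : sig ρ (Ub ρ l * Ub ρ m) =
    ((if l + m = 0 then 1 else 0) + (if l = m then 1 else 0)) / 2 := by
  rw [sig_apply]
  simp only [eval_mul, Ub_eval hρ]
  have e : ∀ φ : ℝ, cos (l * φ) * cos (m * φ) =
      (1 / 2) * (cos ((((l : ℤ) + m : ℤ) : ℝ) * φ) + cos ((((l : ℤ) - m : ℤ) : ℝ) * φ)) := by
    intro φ
    push_cast
    rw [add_mul, sub_mul, cos_add, cos_sub]
    ring
  simp only [e]
  rw [intervalIntegral.integral_const_mul, intervalIntegral.integral_add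
    (Continuous.intervalIntegrable (by fun_prop) _ _)
    (Continuous.intervalIntegrable (by fun_prop) _ _), int_cos, int_cos]
  have h1 : ((l : ℤ) + m = 0) ↔ l + m = 0 := by omega
  have h2 : ((l : ℤ) - m = 0) ↔ l = m := by omega
  have := pi_pos
  simp only [h1, h2]
  split_ifs <;> field_simp <;> ring

lemma sig_nonneg {ρ : ℝ} (hρ : 0 ≤ ρ) (q : ℝ[X])
    (h : ∀ x, 1 - 2 * ρ ≤ x → x ≤ 1 → 0 ≤ q.eval x) : 0 ≤ sig ρ q := by
  rw [sig_apply]
  refine mul_nonneg (inv_pos.2 pi_pos).le (intervalIntegral.integral_nonneg pi_pos.le fun φ _ => ?_)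
  refine h _ ?_ ?_
  · nlinarith [neg_one_le_cos φ]
  · nlinarith [cos_le_one φ]

lemma Ub_natDegree (ρ : ℝ) (m : ℕ) : (Ub ρ m).natDegree ≤ m := by
  unfold Ub
  refine natDegree_comp_le.trans ?_
  have h1 : (C ρ⁻¹ * (X - C (1 - ρ)) : ℝ[X]).natDegree ≤ 1 := by compute_degree
  rw [Chebyshev.natDegree_T]
  simp only [Int.natAbs_natCast]
  nlinarith

lemma T_lip (m : ℕ) {x y : ℝ} (hx : x ∈ Set.Icc (-1 : ℝ) 1) (hy : y ∈ Set.Icc (-1 : ℝ) 1) :
    |(Chebyshev.T ℝ (m : ℤ)).eval x - (Chebyshev.T ℝ (m : ℤ)).eval y| ≤ (m : ℝ) ^ 2 * |x - y| := by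
  have := (convex_Icc (-1 : ℝ) 1).norm_image_sub_le_of_norm_deriv_le
    (f := fun z => (Chebyshev.T ℝ (m : ℤ)).eval z) (C := (m : ℝ) ^ 2)
    (fun z _ => (Chebyshev.T ℝ (m : ℤ)).differentiableAt) (fun z hz => by
      have h := Chebyshev.abs_iterate_derivative_T_real_le (m : ℤ) 1 (abs_le.2 hz)
      simp only [Function.iterate_one, Chebyshev.derivative_T_eval_one] at h
      rw [Polynomial.deriv, Real.norm_eq_abs]
      exact_mod_cast h) hy hx
  simpa only [Real.norm_eq_abs] using this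

lemma Ub_lip {ρ : ℝ} (hρ : 0 < ρ) (m : ℕ) {x y : ℝ} (hx : 1 - 2 * ρ ≤ x) (hx1 : x ≤ 1)
    (hy : 1 - 2 * ρ ≤ y) (hy1 : y ≤ 1) :
    |(Ub ρ m).eval x - (Ub ρ m).eval y| ≤ (m : ℝ) ^ 2 / ρ * |x - y| := by
  have hm : ∀ z, 1 - 2 * ρ ≤ z → z ≤ 1 → ρ⁻¹ * (z - (1 - ρ)) ∈ Set.Icc (-1 : ℝ) 1 := by
    intro z h1 h2
    rw [← div_eq_inv_mul]
    exact ⟨by rw [le_div_iff₀ hρ]; linarith, by rw [div_le_iff₀ hρ]; linarith⟩
  have := T_lip m (hm x hx hx1) (hm y hy hy1)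
  simp only [Ub, eval_comp, eval_mul, eval_C, eval_sub, eval_X]
  refine this.trans (le_of_eq ?_)
  rw [← mul_sub, abs_mul, abs_of_pos (inv_pos.2 hρ), show x - (1 - ρ) - (y - (1 - ρ)) = x - y by ring]
  ring

lemma coef_bound {ρ : ℝ} (hρ : 0 < ρ) (n : ℕ) (p : ℝ[X]) (hp : p.natDegree ≤ n)
    (h : ∀ x, 1 - 2 * ρ ≤ x → x ≤ 1 → 0 ≤ p.eval x) :
    ∃ c : ℕ → ℝ, p = ∑ m ∈ range (n + 1), c m • Ub ρ m ∧ ∀ m, m ≤ n → |c m| ≤ 2 * sig ρ p := by
  obtain ⟨c, hc⟩ := exists_Ub hρ.ne' n p hp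
  refine ⟨c, hc, fun m hm => ?_⟩
  have h0 := sig_nonneg hρ.le p h
  have h1 : sig ρ (p * Ub ρ m) = c m * (((if m + m = 0 then 1 else 0) + 1) / 2) := by
    rw [hc, sum_mul, map_sum, sum_eq_single m]
    · rw [smul_mul_assoc, map_smul, sig_Ub_mul hρ.ne', if_pos rfl, smul_eq_mul]
    · intro l _ hl
      rw [smul_mul_assoc, map_smul, sig_Ub_mul hρ.ne', if_neg hl, if_neg (by omega)]
      simp
    · intro hm'
      exact (hm' (mem_range.2 (by omega))).elim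
  have h2 := sig_nonneg hρ.le (p + p * Ub ρ m) fun x a b => by
    rw [eval_add, eval_mul]
    nlinarith [h x a b, (abs_le.1 (abs_Ub_le hρ m x a b)).1]
  have h3 := sig_nonneg hρ.le (p - p * Ub ρ m) fun x a b => by
    rw [eval_sub, eval_mul]
    nlinarith [h x a b, (abs_le.1 (abs_Ub_le hρ m x a b)).2]
  rw [map_add, h1] at h2
  rw [map_sub, h1] at h3
  rw [abs_le]
  by_cases a : m + m = 0
  · rw [if_pos a] at h2 h3
    constructor <;> linarith
  · rw [if_neg a] at h2 h3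
    constructor <;> linarith

lemma pos_max {ρ : ℝ} (hρ : 0 < ρ) (p : ℝ[X]) :
    ∃ x, 1 - 2 * ρ ≤ x ∧ x ≤ 1 ∧ sig ρ p ≤ p.eval x := by
  obtain ⟨x, hx, hm⟩ := (isCompact_Icc (a := 1 - 2 * ρ) (b := 1)).exists_isMaxOn
    ⟨1, by linarith, le_rfl⟩ p.continuous.continuousOn
  refine ⟨x, hx.1, hx.2, ?_⟩
  have := sig_nonneg hρ.le ((p.eval x) • 1 - p) fun y a b => by
    have : p.eval y ≤ p.eval x := hm ⟨a, b⟩
    simpa using this
  rw [map_sub, map_smul, sig_one, smul_eq_mul, mul_one] at this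
  linarith

lemma pos_bound {ρ : ℝ} (hρ : 0 < ρ) (n : ℕ) (p : ℝ[X]) (hp : p.natDegree ≤ n)
    (h : ∀ x, 1 - 2 * ρ ≤ x → x ≤ 1 → 0 ≤ p.eval x) (x B : ℝ)
    (hB : ∀ m, m ≤ n → |(Ub ρ m).eval x| ≤ B) : |p.eval x| ≤ 2 * (n + 1) * B * sig ρ p := by
  obtain ⟨c, hc, hb⟩ := coef_bound hρ n p hp h
  have h0 := sig_nonneg hρ.le p h
  have e : p.eval x = ∑ m ∈ range (n + 1), c m * (Ub ρ m).eval x := by
    conv_lhs => rw [hc]
    simp only [eval_finsetSum, eval_smul, smul_eq_mul]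
  rw [e]
  refine (abs_sum_le_sum_abs _ _).trans ((sum_le_sum (g := fun _ => 2 * sig ρ p * B)
    fun m hm => ?_).trans (le_of_eq ?_))
  · rw [mem_range] at hm
    rw [abs_mul]
    exact mul_le_mul (hb m (by omega)) (hB m (by omega)) (abs_nonneg _) (by positivity)
  · rw [sum_const, card_range, nsmul_eq_mul]
    push_cast
    ring

lemma pos_lip {ρ : ℝ} (hρ : 0 < ρ) (n : ℕ) (p : ℝ[X]) (hp : p.natDegree ≤ n)
    (h : ∀ x, 1 - 2 * ρ ≤ x → x ≤ 1 → 0 ≤ p.eval x) {x y : ℝ} (hx : 1 - 2 * ρ ≤ x) (hx1 : x ≤ 1)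
    (hy : 1 - 2 * ρ ≤ y) (hy1 : y ≤ 1) :
    |p.eval x - p.eval y| ≤ 2 * (n + 1) * ((n : ℝ) ^ 2 / ρ * |x - y|) * sig ρ p := by
  obtain ⟨c, hc, hb⟩ := coef_bound hρ n p hp h
  have h0 := sig_nonneg hρ.le p h
  have e : p.eval x - p.eval y =
      ∑ m ∈ range (n + 1), c m * ((Ub ρ m).eval x - (Ub ρ m).eval y) := by
    conv_lhs => rw [hc]
    simp only [eval_finsetSum, eval_smul, smul_eq_mul, mul_sub, sum_sub_distrib]
  rw [e]
  refine (abs_sum_le_sum_abs _ _).trans ((sum_le_sum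
    (g := fun _ => 2 * sig ρ p * ((n : ℝ) ^ 2 / ρ * |x - y|)) fun m hm => ?_).trans (le_of_eq ?_))
  · rw [mem_range] at hm
    rw [abs_mul]
    refine mul_le_mul (hb m (by omega)) ((Ub_lip hρ m hx hx1 hy hy1).trans ?_) (abs_nonneg _)
      (by positivity)
    have : (m : ℝ) ≤ n := by exact_mod_cast (by omega : m ≤ n)
    gcongr
  · rw [sum_const, card_range, nsmul_eq_mul]
    push_cast
    ring

lemma mem_closure_hull {ρ : ℝ} (n : ℕ) (Λ : ℝ[X] →ₗ[ℝ] ℝ) (h1 : Λ 1 = 1)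
    (hΛ : ∀ p : ℝ[X], p.natDegree ≤ n → (∀ x, 1 - 2 * ρ ≤ x → x ≤ 1 → 0 ≤ p.eval x) → 0 ≤ Λ p) :
    (fun m : Fin n => Λ (Ub ρ (m + 1))) ∈ closure (convexHull ℝ
      ((fun x => fun m : Fin n => (Ub ρ (m + 1)).eval x) '' Set.Icc (1 - 2 * ρ) 1)) := by
  by_contra hn
  obtain ⟨f, u, hf, hu⟩ := geometric_hahn_banach_point_closed (convex_convexHull ℝ _).closure
    isClosed_closure hn
  have hf' : ∀ v : Fin n → ℝ, f v = ∑ m, v m * f (Pi.single m 1) := by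
    intro v
    conv_lhs => rw [pi_eq_sum_univ' v]
    simp only [map_sum, map_smul, smul_eq_mul]
  have := hΛ (∑ m : Fin n, f (Pi.single m 1) • Ub ρ (m + 1) - u • 1) (by
    refine (natDegree_sub_le _ _).trans (max_le ?_ ?_)
    · refine natDegree_sum_le_of_forall_le _ _ fun m _ => (natDegree_smul_le _ _).trans ?_
      exact (Ub_natDegree ρ _).trans m.2
    · exact (natDegree_smul_le _ _).trans (by simp)) (by
    intro x a b
    have h2 := hu _ (subset_closure (subset_convexHull ℝ _ ⟨x, ⟨a, b⟩, rfl⟩))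
    rw [hf'] at h2
    simp only [eval_sub, eval_finsetSum, eval_smul, smul_eq_mul, eval_one, mul_one]
    simp only [mul_comm] at h2 ⊢
    linarith)
  rw [hf'] at hf
  simp only [map_sub, map_sum, map_smul, smul_eq_mul, h1, mul_one] at this
  simp only [mul_comm] at hf this
  linarith

theorem gen_quad {ρ : ℝ} (hρ : 0 < ρ) (n M : ℕ) (hn : 1 ≤ n) (Λ : ℝ[X] →ₗ[ℝ] ℝ) (h1 : Λ 1 = M)
    (hΛ : ∀ p : ℝ[X], p.natDegree ≤ n → (∀ x, 1 - 2 * ρ ≤ x → x ≤ 1 → 0 ≤ p.eval x) →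
      19 * (n : ℝ) ^ 3 * sig ρ p ≤ Λ p) :
    ∃ Y : Multiset ℝ, Multiset.card Y = M ∧ (∀ x ∈ Y, 1 - 2 * ρ ≤ x ∧ x ≤ 1) ∧
      ∀ q : ℝ[X], q.natDegree ≤ n → (Y.map fun x => q.eval x).sum = Λ q := by
  have hn1 : (1 : ℝ) ≤ n := by exact_mod_cast hn
  have hM : 19 * (n : ℝ) ^ 3 ≤ M := by
    simpa [sig_one, h1] using hΛ 1 (by simp) (by simp)
  have hn3 : (1 : ℝ) ≤ (n : ℝ) ^ 3 := one_le_pow₀ hn1
  set t : ℝ := M - 18 * (n : ℝ) ^ 3 with ht
  have ht0 : 0 < t := by linarith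
  have hmem := mem_closure_hull (ρ := ρ) n (t⁻¹ • (Λ - (18 * (n : ℝ) ^ 3) • sig ρ)) (by
    simp only [LinearMap.smul_apply, LinearMap.sub_apply, sig_one, h1, smul_eq_mul, mul_one]
    exact inv_mul_cancel₀ ht0.ne') (by
    intro p hp h
    have a := hΛ p hp h
    have b := sig_nonneg hρ.le p h
    simp only [LinearMap.smul_apply, LinearMap.sub_apply, smul_eq_mul]
    refine mul_nonneg (inv_pos.2 ht0).le ?_
    nlinarith)
  obtain ⟨u, hu, hd⟩ := Metric.mem_closure_iff.1 hmem t⁻¹ (inv_pos.2 ht0)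
  obtain ⟨ι, _, z, w, hz, hai, hw0, hw1, hwz⟩ := eq_pos_convex_span_of_mem_convexHull hu
  have hcard : (Fintype.card ι : ℝ) ≤ n + 1 := by
    have a := hai.card_le_finrank_succ
    have b := Submodule.finrank_le (vectorSpan ℝ (Set.range z))
    rw [Module.finrank_fin_fun] at b
    exact_mod_cast (by omega : Fintype.card ι ≤ n + 1)
  have hx : ∀ i, ∃ x, (1 - 2 * ρ ≤ x ∧ x ≤ 1) ∧
      (fun m : Fin n => (Ub ρ (m + 1)).eval x) = z i := fun i => hz ⟨i, rfl⟩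
  choose x hx hxz using hx
  let Mi : ι → ℕ := fun i => ⌊t * w i⌋₊
  have hM1 : ∀ i, (Mi i : ℝ) ≤ t * w i := fun i => Nat.floor_le (mul_pos ht0 (hw0 i)).le
  have hM2 : ∀ i, t * w i < Mi i + 1 := fun i => Nat.lt_floor_add_one _
  have hsum : ∑ i, (Mi i : ℝ) ≤ t := by
    refine (sum_le_sum fun i _ => hM1 i).trans ?_
    rw [← mul_sum, hw1, mul_one]
  have hle : ∑ i, Mi i ≤ M := by
    have : ((∑ i, Mi i : ℕ) : ℝ) ≤ M := by
      push_cast
      linarith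
    exact_mod_cast this
  obtain ⟨R, hR⟩ := Nat.exists_eq_add_of_le hle
  have hRr : (M : ℝ) = ∑ i, (Mi i : ℝ) + R := by exact_mod_cast hR
  let Λ' : ℝ[X] →ₗ[ℝ] ℝ := Λ - ∑ i, (Mi i : ℝ) • leval (x i)
  have hΛ' : ∀ q, Λ' q = Λ q - ∑ i, (Mi i : ℝ) * q.eval (x i) := fun q => by
    simp [Λ', LinearMap.sum_apply]
  obtain ⟨Φ, k1, k2⟩ := arc_quad hρ.ne' n R (2 * n * (n + 2)) (1 / (2 * n)) Λ'
    (by
      rw [hΛ', h1]
      simp only [eval_one, mul_one]
      linarith)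
    (by
      rw [mul_one_div, div_lt_one (by positivity)]
      linarith)
    (by nlinarith)
    (by
      have : ((2 * n * (n + 2) * (2 * n + 1) : ℕ) : ℝ) ≤ R := by
        push_cast
        nlinarith
      exact_mod_cast this)
    (by
      intro m hm1 hm2
      obtain ⟨m, rfl⟩ : ∃ m', m = m' + 1 := ⟨m - 1, by omega⟩
      let m' : Fin n := ⟨m, hm2⟩
      have a1 := (dist_le_pi_dist _ _ m').trans_lt hd
      have a2 : u m' = ∑ i, w i * (Ub ρ (m + 1)).eval (x i) := by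
        rw [← hwz]
        simp only [Finset.sum_apply, Pi.smul_apply, smul_eq_mul, ← hxz, m']
      simp only [LinearMap.smul_apply, LinearMap.sub_apply, smul_eq_mul, m',
        sig_Ub hρ.ne' hm1, mul_zero, sub_zero, Real.dist_eq] at a1
      have a3 : |Λ (Ub ρ (m + 1)) - t * u m'| ≤ 1 := by
        have e : Λ (Ub ρ (m + 1)) - t * u m' = t * (t⁻¹ * Λ (Ub ρ (m + 1)) - u m') := by
          field_simp
        rw [e, abs_mul, abs_of_pos ht0]
        have := mul_le_mul_of_nonneg_left a1.le ht0.le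
        rwa [mul_inv_cancel₀ ht0.ne'] at this
      have a4 : |∑ i, (t * w i - Mi i) * (Ub ρ (m + 1)).eval (x i)| ≤ n + 1 := by
        refine (abs_sum_le_sum_abs _ _).trans ((sum_le_sum (g := fun _ => (1 : ℝ))
          fun i _ => ?_).trans (by simpa using hcard))
        have h5 : |t * w i - Mi i| ≤ 1 := by
          rw [abs_le]
          constructor <;> linarith [hM1 i, hM2 i]
        rw [abs_mul]
        exact mul_le_one₀ h5 (abs_nonneg _) (abs_Ub_le hρ _ _ (hx i).1 (hx i).2)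
      have a5 : Λ' (Ub ρ (m + 1)) = (Λ (Ub ρ (m + 1)) - t * u m') +
          ∑ i, (t * w i - Mi i) * (Ub ρ (m + 1)).eval (x i) := by
        rw [hΛ', a2]
        simp only [sub_mul, sum_sub_distrib, mul_sum, mul_assoc]
        ring
      rw [a5]
      refine (abs_add_le _ _).trans ((add_le_add a3 a4).trans (le_of_eq ?_))
      push_cast
      field_simp
      ring)
  refine ⟨∑ i, Multiset.replicate (Mi i) (x i) + Φ.map fun φ => 1 - ρ + ρ * cos φ, ?_, ?_, ?_⟩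
  · rw [Multiset.card_add, Multiset.card_map, k1, Multiset.card_sum, hR]
    simp
  · intro y hy
    rcases Multiset.mem_add.1 hy with hy | hy
    · obtain ⟨i, -, hi⟩ := Multiset.mem_sum.1 hy
      rw [Multiset.eq_of_mem_replicate hi]
      exact hx i
    · obtain ⟨φ, -, rfl⟩ := Multiset.mem_map.1 hy
      constructor <;> nlinarith [neg_one_le_cos φ, cos_le_one φ]
  · intro q hq
    have e0 := map_sum (Multiset.mapAddMonoidHom fun y => q.eval y)
      (fun i => Multiset.replicate (Mi i) (x i)) univ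
    simp only [Multiset.coe_mapAddMonoidHom] at e0
    rw [Multiset.map_add, Multiset.sum_add, Multiset.map_map, e0, Multiset.sum_sum]
    have e2 : (Multiset.map ((fun y => q.eval y) ∘ fun φ => 1 - ρ + ρ * cos φ) Φ).sum = Λ' q :=
      k2 q hq
    rw [e2, hΛ']
    simp

end Pool.Agent.P.MP_8220a0_an
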