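import Pool.Agent.P.MP_8220a0_an.Weight

/-!
Equal-weight quadrature at the special degrees, the test polynomial, and the choice of the
coefficients.
-/

namespace Pool.Agent.P.MP_8220a0_an

open Polynomial Finset Real MeasureTheory Filter Topology

lemma sym_nodes (X : Multiset ℝ) (hX : ∀ x ∈ X, -1 ≤ x ∧ x ≤ 1) (e : ℕ) :
    ∃ Θ : Multiset ℝ, Multiset.card Θ = 2 * Multiset.card X + e ∧
      (∀ g : ℝ → ℝ, (Θ.map fun θ => g (cos θ)).sum = 2 * (X.map g).sum + e * g 1) ∧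
      ∀ t : ℝ, (Θ.map fun θ => sin (t * θ)).sum = 0 := by
  refine ⟨X.map arccos + X.map (fun x => -arccos x) + Multiset.replicate e 0, ?_, fun g => ?_,
    fun t => ?_⟩
  · simp only [Multiset.card_add, Multiset.card_map, Multiset.card_replicate]
    ring
  · simp only [Multiset.map_add, Multiset.map_map, Multiset.sum_add, Function.comp_def, cos_neg,
      Multiset.map_replicate, Multiset.sum_replicate, cos_zero, nsmul_eq_mul]
    rw [Multiset.map_congr rfl fun x hx => by rw [cos_arccos (hX x hx).1 (hX x hx).2]]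
    ring
  · simp only [Multiset.map_add, Multiset.map_map, Multiset.sum_add, Function.comp_def, mul_neg,
      sin_neg, Multiset.map_replicate, Multiset.sum_replicate, mul_zero, sin_zero, smul_zero,
      Multiset.sum_map_neg]
    ring

lemma quad {a : ℕ → ℝ} (h : Adm a) (k n N : ℕ) (B : ℝ) (hn : 1 ≤ n)
    (hB : ∀ m, m ≤ n → ∀ x, -1 ≤ x → x ≤ 1 → |(Ub (rr k) m).eval x| ≤ B)
    (ha : 2 * a (k + 1) * B * (4 * n * (2 * n + 1)) ≤ a k)
    (hN : 80 * (n : ℝ) ^ 2 * (k + 1) ≤ N * a k) :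
    ∃ Θ : Multiset ℝ, Multiset.card Θ = N ∧
      (∀ q : ℝ[X], q.natDegree ≤ n →
        (Θ.map fun θ => q.eval (cos θ)).sum = N / (∑' j, a j) * mu h q) ∧
      ∀ t : ℝ, (Θ.map fun θ => sin (t * θ)).sum = 0 := by
  set A := ∑' j, a j with hA
  have hA1 : 1 ≤ A := h.one_le
  have hA2 : A ≤ 2 := h.tsum_le
  have hn1 : (1 : ℝ) ≤ n := by exact_mod_cast hn
  have hk0 : (0 : ℝ) ≤ k := Nat.cast_nonneg k
  have hN0 : (0 : ℝ) ≤ N := Nat.cast_nonneg N
  set κ : ℝ := N / (2 * A) with hκ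
  have hκ0 : 0 ≤ κ := by positivity
  have hκA : κ * A = N / 2 := by rw [hκ]; field_simp
  have hy : 20 * (n : ℝ) ^ 2 * (k + 1) ≤ κ * a k := by
    have h1 : (N : ℝ) / 4 ≤ κ := div_le_div_of_nonneg_left hN0 (by positivity) (by linarith)
    have h2 := mul_le_mul_of_nonneg_right h1 (h.pos k).le
    linarith
  have hn2 : (n : ℝ) ≤ (n : ℝ) ^ 2 * (k + 1) := by nlinarith
  let Mj : ℕ → ℕ := fun j => ⌊κ * a j⌋₊
  have hMj1 : ∀ j, (Mj j : ℝ) ≤ κ * a j := fun j => Nat.floor_le (mul_nonneg hκ0 (h.pos j).le)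
  have hMj2 : ∀ j, κ * a j < Mj j + 1 := fun j => Nat.lt_floor_add_one _
  have hex : ∀ j, ∃ Φ : Multiset ℝ, j < k → Multiset.card Φ = Mj j ∧ ∀ q : ℝ[X],
      q.natDegree ≤ n →
        (Φ.map fun φ => q.eval (1 - rr j + rr j * cos φ)).sum = Mj j * sig (rr j) q := by
    intro j
    by_cases hj : j < k
    · obtain ⟨Φ, h1, h2⟩ := arc_quad (rr_pos j).ne' n (Mj j) 1 0 ((Mj j : ℝ) • sig (rr j))
        (by simp [sig_one]) (by simp) le_rfl (by
          have h1 := mul_le_mul_of_nonneg_left (h.anti hj.le) hκ0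
          have h2 := hMj2 j
          have h3 : ((2 * n + 1 : ℕ) : ℝ) ≤ Mj j := by
            push_cast
            linarith
          rw [one_mul]
          exact_mod_cast h3) (fun m hm _ => by simp [sig_Ub (rr_pos j).ne' hm])
      exact ⟨Φ, fun _ => ⟨h1, fun q hq => by rw [h2 q hq]; simp⟩⟩
    · exact ⟨0, fun h' => (hj h').elim⟩
  choose Φ hΦ using hex
  have hdiv : (N : ℝ) = 2 * (N / 2 : ℕ) + (N % 2 : ℕ) := by
    exact_mod_cast (Nat.div_add_mod N 2).symm
  have he1 : ((N % 2 : ℕ) : ℝ) ≤ 1 := by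
    have : N % 2 ≤ 1 := by omega
    exact_mod_cast this
  have he0 : (0 : ℝ) ≤ (N % 2 : ℕ) := Nat.cast_nonneg _
  have hsum : (∑ j ∈ range k, (Mj j : ℝ)) + κ * a k ≤ N / 2 := by
    have h1 : ∑ j ∈ range k, (Mj j : ℝ) ≤ κ * ∑ j ∈ range k, a j := by
      rw [mul_sum]
      exact sum_le_sum fun j _ => hMj1 j
    have h2 := h.sum_le (k + 1)
    rw [sum_range_succ] at h2
    have h3 := mul_le_mul_of_nonneg_left h2 hκ0
    rw [mul_add] at h3
    linarith
  have hle : ∑ j ∈ range k, Mj j ≤ N / 2 := by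
    have : ((∑ j ∈ range k, Mj j : ℕ) : ℝ) ≤ (N / 2 : ℕ) := by
      push_cast
      linarith
    exact_mod_cast this
  obtain ⟨Mk, hMk⟩ := Nat.exists_eq_add_of_le hle
  have hMkr : ((N / 2 : ℕ) : ℝ) = ∑ j ∈ range k, (Mj j : ℝ) + Mk := by exact_mod_cast hMk
  have hMk2 : κ * a k - 1 / 2 ≤ Mk := by linarith
  let Λ : ℝ[X] →ₗ[ℝ] ℝ := κ • mu h - (((N % 2 : ℕ) : ℝ) / 2) • leval 1 -
    ∑ j ∈ range k, (Mj j : ℝ) • sig (rr j)
  have hΛ : ∀ q, Λ q = κ * mu h q - ((N % 2 : ℕ) : ℝ) / 2 * q.eval 1 -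
      ∑ j ∈ range k, (Mj j : ℝ) * sig (rr j) q := fun q => by
    simp [Λ, LinearMap.sum_apply]
  have hL1 : Mk / (2 * n + 1) * (2 * n + 1) ≤ Mk := Nat.div_mul_le_self _ _
  have hL2 : (Mk : ℝ) < ((Mk / (2 * n + 1) : ℕ) + 1) * (2 * n + 1) := by
    have := Nat.lt_div_mul_add (a := Mk) (show 0 < 2 * n + 1 by omega)
    have h2 : Mk < (Mk / (2 * n + 1) + 1) * (2 * n + 1) := by rw [add_mul, one_mul]; exact this
    exact_mod_cast h2
  obtain ⟨Φk, hk1, hk2⟩ := arc_quad (rr_pos k).ne' n Mk (Mk / (2 * n + 1)) (1 / (2 * n)) Λ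
    (by
      rw [hΛ, mu_one h, ← hA, hκA]
      simp only [eval_one, sig_one, mul_one]
      linarith)
    (by
      rw [mul_one_div, div_lt_one (by positivity)]
      linarith)
    (by
      rw [Nat.one_le_div_iff (by omega)]
      have h3 : ((2 * n + 1 : ℕ) : ℝ) ≤ Mk := by
        push_cast
        linarith
      exact_mod_cast h3) hL1 (by
      intro m hm1 hm2
      have h1 := mu_split h (Ub (rr k) m) (k + 1) B (hB m hm2)
      rw [sum_range_succ, sig_Ub (rr_pos k).ne' hm1, mul_zero, add_zero] at h1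
      have h2 : |(Ub (rr k) m).eval 1| ≤ 1 :=
        abs_Ub_le (rr_pos k) m 1 (by linarith [rr_pos k]) le_rfl
      have h3 : |∑ j ∈ range k, (κ * a j - Mj j) * sig (rr j) (Ub (rr k) m)| ≤ k := by
        refine (abs_sum_le_sum_abs _ _).trans ((sum_le_sum (g := fun _ => (1 : ℝ))
          fun j hj => ?_).trans (by simp))
        rw [mem_range] at hj
        have h4 : |sig (rr j) (Ub (rr k) m)| ≤ 1 := sig_abs_le (rr_pos j).le _ 1 fun x h5 h6 =>
          abs_Ub_le (rr_pos k) m x (by linarith [rr_mono hj.le]) h6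
        have h5 : |κ * a j - Mj j| ≤ 1 := by
          rw [abs_le]
          constructor <;> linarith [hMj1 j, hMj2 j]
        rw [abs_mul]
        exact mul_le_one₀ h5 (abs_nonneg _) h4
      have h4 : Λ (Ub (rr k) m) =
          κ * (mu h (Ub (rr k) m) - ∑ j ∈ range k, a j * sig (rr j) (Ub (rr k) m)) +
          ∑ j ∈ range k, (κ * a j - Mj j) * sig (rr j) (Ub (rr k) m) -
          ((N % 2 : ℕ) : ℝ) / 2 * (Ub (rr k) m).eval 1 := by
        rw [hΛ]
        simp only [sub_mul, sum_sub_distrib, mul_sub, mul_sum, mul_assoc]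
        ring
      have h5 : |Λ (Ub (rr k) m)| ≤ κ * (2 * a (k + 1) * B) + k + 1 / 2 := by
        rw [h4]
        refine (abs_sub _ _).trans (add_le_add ((abs_add_le _ _).trans (add_le_add ?_ h3)) ?_)
        · rw [abs_mul, abs_of_nonneg hκ0]
          exact mul_le_mul_of_nonneg_left h1 hκ0
        · rw [abs_mul, abs_of_nonneg (by positivity)]
          nlinarith [abs_nonneg ((Ub (rr k) m).eval 1)]
      refine h5.trans ?_
      have h6 := mul_le_mul_of_nonneg_left ha hκ0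
      rw [one_div_mul_eq_div, le_div_iff₀ (by positivity)]
      refine le_of_mul_le_mul_right ?_ (show (0 : ℝ) < 2 * n + 1 by positivity)
      have h7 : ((k : ℝ) + 1 / 2) * (2 * n) * (2 * n + 1) ≤ 6 * ((n : ℝ) ^ 2 * (k + 1)) := by
        have : (n : ℝ) * (2 * n + 1) ≤ 3 * (n : ℝ) ^ 2 := by nlinarith
        nlinarith
      nlinarith)
  let xx : ℕ → ℝ → ℝ := fun j φ => 1 - rr j + rr j * cos φ
  have hxx : ∀ j φ, -1 ≤ xx j φ ∧ xx j φ ≤ 1 := fun j φ => by
    have := rr_pos j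
    have := rr_lt_one j
    simp only [xx]
    constructor <;> nlinarith [neg_one_le_cos φ, cos_le_one φ]
  obtain ⟨Θ, t1, t2, t3⟩ := sym_nodes (∑ j ∈ range k, (Φ j).map (xx j) + Φk.map (xx k)) (by
    intro x hx
    rcases Multiset.mem_add.1 hx with hx | hx
    · obtain ⟨j, -, hj⟩ := Multiset.mem_sum.1 hx
      obtain ⟨φ, -, rfl⟩ := Multiset.mem_map.1 hj
      exact hxx j φ
    · obtain ⟨φ, -, rfl⟩ := Multiset.mem_map.1 hx
      exact hxx k φ) (N % 2)
  refine ⟨Θ, ?_, fun q hq => ?_, t3⟩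
  · rw [t1, Multiset.card_add, Multiset.card_map, hk1, Multiset.card_sum,
      sum_congr rfl fun j hj => (Multiset.card_map _ _).trans (hΦ j (mem_range.1 hj)).1, ← hMk]
    exact Nat.div_add_mod N 2
  · rw [t2 (fun x => q.eval x), Multiset.map_add, Multiset.sum_add, Multiset.map_map]
    have e1 : (Multiset.map (fun x => q.eval x) (∑ j ∈ range k, (Φ j).map (xx j))).sum =
        ∑ j ∈ range k, (Mj j : ℝ) * sig (rr j) q := by
      have e0 := map_sum (Multiset.mapAddMonoidHom fun x => q.eval x)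
        (fun j => (Φ j).map (xx j)) (range k)
      simp only [Multiset.coe_mapAddMonoidHom] at e0
      rw [e0, Multiset.sum_sum]
      refine sum_congr rfl fun j hj => ?_
      rw [Multiset.map_map]
      exact (hΦ j (mem_range.1 hj)).2 q hq
    have e2 : (Multiset.map ((fun x => q.eval x) ∘ xx k) Φk).sum = Λ q := hk2 q hq
    rw [e1, e2, hΛ, hκ]
    field_simp
    ring

/-- The test polynomial. -/
noncomputable def tq (n : ℕ) : ℝ[X] := (C (1 / 2) * (1 - X)) ^ n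

lemma tq_eval (n : ℕ) (x : ℝ) : (tq n).eval x = ((1 - x) / 2) ^ n := by
  simp only [tq, eval_pow, eval_mul, eval_C, eval_sub, eval_one, eval_X]
  congr 1
  ring

lemma tq_natDegree (n : ℕ) : (tq n).natDegree ≤ n := by
  unfold tq
  refine natDegree_pow_le.trans ?_
  have : (C (1 / 2 : ℝ) * (1 - X)).natDegree ≤ 1 := by compute_degree
  nlinarith

lemma mu_tq {a : ℕ → ℝ} (h : Adm a) (k n : ℕ) :
    mu h (tq n) ≤ (∑' j, a j) * rr k ^ n + 2 * a (k + 1) := by
  have h1 := mu_split h (tq n) (k + 1) 1 (fun x h1 h2 => by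
    rw [tq_eval, abs_of_nonneg (pow_nonneg (by linarith) _)]
    exact pow_le_one₀ (by linarith) (by linarith))
  have h2 : ∑ j ∈ range (k + 1), a j * sig (rr j) (tq n) ≤ (∑' j, a j) * rr k ^ n := by
    refine le_trans (sum_le_sum (g := fun j => a j * rr k ^ n) fun j hj => ?_) ?_
    · rw [mem_range] at hj
      refine mul_le_mul_of_nonneg_left ((le_abs_self _).trans
        (sig_abs_le (rr_pos j).le _ _ fun x h1 h2 => ?_)) (h.pos j).le
      rw [tq_eval, abs_of_nonneg (pow_nonneg (by linarith) _)]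
      exact pow_le_pow_left₀ (by linarith) (by linarith [rr_mono (show j ≤ k by omega)]) n
    · rw [← sum_mul]
      exact mul_le_mul_of_nonneg_right (h.sum_le _) (pow_nonneg (rr_pos k).le n)
  linarith [(abs_le.1 h1).2]

lemma exists_step (k : ℕ) (x : ℝ) : ∃ y : ℝ, 0 < x → 0 < y ∧ y ≤ x / 2 ∧ ∃ (n : ℕ) (B : ℝ),
    k + 1 ≤ n ∧ (∀ m, m ≤ n → ∀ z, -1 ≤ z → z ≤ 1 → |(Ub (rr k) m).eval z| ≤ B) ∧
    2 * y * B * (4 * n * (2 * n + 1)) ≤ x ∧ 2 * y ≤ rr k ^ n ∧
    324 * (k + 1) ^ 2 * ((n : ℝ) ^ 2 * rr k ^ n) < x := by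
  by_cases hx : 0 < x
  swap
  · exact ⟨0, fun h => (hx h).elim⟩
  have ht := (tendsto_pow_const_mul_const_pow_of_abs_lt_one 2 (r := rr k)
    (by rw [abs_of_pos (rr_pos k)]; exact rr_lt_one k)).const_mul (324 * ((k : ℝ) + 1) ^ 2)
  rw [mul_zero] at ht
  obtain ⟨n, hn1, hn2⟩ := ((ht.eventually_lt_const hx).and (eventually_ge_atTop (k + 1))).exists
  have hb : ∀ m : ℕ, ∃ B, ∀ z, -1 ≤ z → z ≤ 1 → |(Ub (rr k) m).eval z| ≤ B := fun m => by
    obtain ⟨B, hB⟩ := (isCompact_Icc (a := (-1 : ℝ)) (b := 1)).exists_bound_of_continuousOn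
      (Ub (rr k) m).continuous.continuousOn
    exact ⟨B, fun z h1 h2 => hB z ⟨h1, h2⟩⟩
  choose b hb using hb
  set B := 1 + ∑ m ∈ range (n + 1), |b m| with hB
  have hB0 : 0 < B := by positivity
  have hnr : (0 : ℝ) < n := by exact_mod_cast (by omega : 0 < n)
  have hr := pow_pos (rr_pos k) n
  set D := 2 * B * (4 * n * (2 * n + 1)) with hD
  have hD0 : 0 < D := by positivity
  refine ⟨min (x / 2) (min (x / D) (rr k ^ n / 2)), fun _ => ⟨by positivity, min_le_left _ _,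
    n, B, hn2, fun m hm z h1 h2 => ?_, ?_, ?_, hn1⟩⟩
  · have := single_le_sum (f := fun m => |b m|) (fun _ _ => abs_nonneg _)
      (mem_range.2 (show m < n + 1 by omega))
    linarith [hb m z h1 h2, le_abs_self (b m)]
  · have h1 : min (x / 2) (min (x / D) (rr k ^ n / 2)) ≤ x / D :=
      (min_le_right _ _).trans (min_le_left _ _)
    rw [le_div_iff₀ hD0, hD] at h1
    linarith
  · have h1 : min (x / 2) (min (x / D) (rr k ^ n / 2)) ≤ rr k ^ n / 2 :=
      (min_le_right _ _).trans (min_le_right _ _)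
    linarith

lemma exists_adm : ∃ a : ℕ → ℝ, Adm a ∧ ∀ k, ∃ (n : ℕ) (B : ℝ),
    k + 1 ≤ n ∧ (∀ m, m ≤ n → ∀ z, -1 ≤ z → z ≤ 1 → |(Ub (rr k) m).eval z| ≤ B) ∧
    2 * a (k + 1) * B * (4 * n * (2 * n + 1)) ≤ a k ∧ 2 * a (k + 1) ≤ rr k ^ n ∧
    324 * (k + 1) ^ 2 * ((n : ℝ) ^ 2 * rr k ^ n) < a k := by
  choose F hF using exists_step
  let a : ℕ → ℝ := fun k => Nat.rec 1 F k
  have hpos : ∀ k, 0 < a k := by
    intro k
    induction k with
    | zero => exact one_pos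
    | succ k ih => exact (hF k _ ih).1
  exact ⟨a, ⟨rfl, hpos, fun k => (hF k _ (hpos k)).2.1⟩, fun k => (hF k _ (hpos k)).2.2⟩

end Pool.Agent.P.MP_8220a0_an
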