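import Pool.Agent.P.MP_8220a0_an.Gen
import Pool.Agent.P.MP_8220a0_an.Main

/-!
Weights of the form `F (cos θ)` that are bounded below on almost all of an arc and tiny off the
arc: quadrature with polynomially many nodes, and the test polynomial.
-/

namespace Pool.Agent.P.MP_8220a0_an

open Polynomial Finset Real MeasureTheory

/-- The moment functional of the weight `F (cos θ)`. -/
noncomputable def muF (F : ℝ → ℝ) (hF : Continuous F) : ℝ[X] →ₗ[ℝ] ℝ where
  toFun q := ∫ θ in (-π)..π, q.eval (cos θ) * F (cos θ)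
  map_add' p q := by
    simp only [eval_add, add_mul]
    exact intervalIntegral.integral_add (Continuous.intervalIntegrable (by fun_prop) _ _)
      (Continuous.intervalIntegrable (by fun_prop) _ _)
  map_smul' c q := by
    simp only [eval_smul, smul_eq_mul, mul_assoc, intervalIntegral.integral_const_mul,
      RingHom.id_apply]

lemma muF_apply (F : ℝ → ℝ) (hF : Continuous F) (q : ℝ[X]) :
    muF F hF q = ∫ θ in (-π)..π, q.eval (cos θ) * F (cos θ) := rfl

lemma muF_one (F : ℝ → ℝ) (hF : Continuous F) : muF F hF 1 = ∫ θ in (-π)..π, F (cos θ) := by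
  rw [muF_apply]
  simp

lemma int_lower {g : ℝ → ℝ} (hg : Continuous g) (K u l s : ℝ) (hl : 0 ≤ l) (h1 : -π ≤ u)
    (h2 : u + l ≤ π) (hK : 0 ≤ K) (h3 : ∀ θ, -K ≤ g θ) (h4 : ∀ θ, u ≤ θ → θ ≤ u + l → s ≤ g θ) :
    l * s - 2 * π * K ≤ ∫ θ in (-π)..π, g θ := by
  have a1 := intervalIntegral.integral_mono_interval (f := fun θ => g θ + K) (μ := volume)
    h1 (show u ≤ u + l by linarith) h2
    (Filter.Eventually.of_forall fun θ => by
      show 0 ≤ g θ + K
      linarith [h3 θ]) (Continuous.intervalIntegrable (by fun_prop) _ _)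
  have a2 := intervalIntegral.integral_mono_on (f := fun _ => s) (g := fun θ => g θ + K)
    (μ := volume) (show u ≤ u + l by linarith) (Continuous.intervalIntegrable (by fun_prop) _ _)
    (Continuous.intervalIntegrable (by fun_prop) _ _) fun θ hθ => by
      linarith [h4 θ hθ.1 hθ.2]
  have a3 := a2.trans a1
  rw [intervalIntegral.integral_add (hg.intervalIntegrable _ _)
    (Continuous.intervalIntegrable (by fun_prop) _ _)] at a3
  simp only [intervalIntegral.integral_const, smul_eq_mul] at a3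
  linarith

lemma half_le_cos {θ : ℝ} (h : |θ| ≤ 1) : 1 / 2 ≤ cos θ := by
  have h1 := one_sub_sq_div_two_le_cos (x := θ)
  have h2 : θ ^ 2 ≤ 1 := by
    rw [← sq_abs]
    exact pow_le_one₀ (abs_nonneg _) h
  linarith

/-- The data of one level. -/
structure Level (F : ℝ → ℝ) (ρ : ℝ) (n : ℕ) (a τ B : ℝ) : Prop where
  nonneg : ∀ x, 0 ≤ F x
  le_two : ∀ x, F x ≤ 2
  half : 1 / 2 ≤ ρ
  one_le : 1 ≤ n
  pos : 0 < a
  off : ∀ x, x ≤ 1 - 2 * ρ → F x ≤ τ
  on : ∀ x, 1 - 2 * ρ + 1 / (32 * (n : ℝ) ^ 3) ≤ x → a ≤ F x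
  bound : ∀ m, m ≤ n → ∀ z, -1 ≤ z → z ≤ 1 → |(Ub ρ m).eval z| ≤ B
  small : τ * B * (2 * (n + 1)) * (1024 * (n : ℝ) ^ 3) ≤ a
  small' : 4 * τ ≤ ρ ^ n * a
  lt_one : ρ < 1

variable {F : ℝ → ℝ} {ρ : ℝ} {n : ℕ} {a τ B : ℝ}

lemma Level.gap (h : Level F ρ n a τ B) :
    0 < 1 / (32 * (n : ℝ) ^ 3) ∧ 1 / (32 * (n : ℝ) ^ 3) ≤ 1 / 2 := by
  have hn1 : (1 : ℝ) ≤ n := by exact_mod_cast h.one_le
  have hn3 : (1 : ℝ) ≤ (n : ℝ) ^ 3 := one_le_pow₀ hn1
  exact ⟨by positivity, one_div_le_one_div_of_le (by norm_num) (by linarith)⟩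

lemma Level.tau_nonneg (h : Level F ρ n a τ B) : 0 ≤ τ := (h.nonneg _).trans (h.off _ le_rfl)

lemma Level.total_le (h : Level F ρ n a τ B) (hF : Continuous F) : muF F hF 1 ≤ 16 := by
  rw [muF_one]
  have := intervalIntegral.integral_mono_on (f := fun θ => F (cos θ)) (g := fun _ => (2 : ℝ))
    (μ := volume) (show -π ≤ π by linarith [pi_pos])
    (Continuous.intervalIntegrable (by fun_prop) _ _)
    (Continuous.intervalIntegrable (by fun_prop) _ _) fun θ _ => h.le_two _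
  simp only [intervalIntegral.integral_const, smul_eq_mul] at this
  linarith [pi_le_four]

lemma Level.total_ge (h : Level F ρ n a τ B) (hF : Continuous F) : 2 * a ≤ muF F hF 1 := by
  rw [muF_one]
  have := int_lower (g := fun θ => F (cos θ)) (by fun_prop) 0 (-1) 2 a (by norm_num)
    (by linarith [pi_gt_three]) (by linarith [pi_gt_three]) le_rfl
    (fun θ => by simpa using h.nonneg _) fun θ h1 h2 => h.on _ (by
      have := half_le_cos (θ := θ) (abs_le.2 ⟨h1, by linarith⟩)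
      linarith [h.gap.2, h.half])
  linarith

lemma Level.low (h : Level F ρ n a τ B) (hF : Continuous F) (p : ℝ[X]) (hp : p.natDegree ≤ n)
    (hp0 : ∀ x, 1 - 2 * ρ ≤ x → x ≤ 1 → 0 ≤ p.eval x) :
    a * sig ρ p ≤ 128 * (n : ℝ) ^ 3 * muF F hF p := by
  have hρ : 0 < ρ := by linarith [h.half]
  have hn1 : (1 : ℝ) ≤ n := by exact_mod_cast h.one_le
  have hs := sig_nonneg hρ.le p hp0
  obtain ⟨g0, g1⟩ := h.gap
  set l : ℝ := 1 / (32 * (n : ℝ) ^ 3) with hl
  have hlip : ∀ x y, 1 - 2 * ρ ≤ x → x ≤ 1 → 1 - 2 * ρ ≤ y → y ≤ 1 → |x - y| ≤ l →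
      |p.eval x - p.eval y| ≤ sig ρ p / 4 := by
    intro x y a1 a2 a3 a4 a5
    refine (pos_lip hρ n p hp hp0 a1 a2 a3 a4).trans ?_
    have b1 : (n : ℝ) ^ 2 / ρ ≤ 2 * (n : ℝ) ^ 2 := by
      rw [div_le_iff₀ hρ]
      nlinarith [h.half, sq_nonneg (n : ℝ)]
    have b2 : (n : ℝ) ^ 2 / ρ * |x - y| ≤ 2 * (n : ℝ) ^ 2 * l :=
      mul_le_mul b1 a5 (abs_nonneg _) (by positivity)
    have b3 : 2 * ((n : ℝ) + 1) * ((n : ℝ) ^ 2 / ρ * |x - y|) ≤ 4 * n * (2 * (n : ℝ) ^ 2 * l) :=
      mul_le_mul (by linarith) b2 (by positivity) (by positivity)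
    have b4 : 4 * n * (2 * (n : ℝ) ^ 2 * l) = 1 / 4 := by
      rw [hl]
      field_simp
      norm_num
    rw [b4] at b3
    have := mul_le_mul_of_nonneg_right b3 hs
    linarith
  obtain ⟨x0, a1, a2, a3⟩ := pos_max hρ p
  set x1 := max x0 (1 - 2 * ρ + l) with hx1
  have c1 : 1 - 2 * ρ + l ≤ x1 := le_max_right _ _
  have c2 : x1 ≤ 1 := max_le a2 (by linarith [h.half])
  have c3 : |x0 - x1| ≤ l := by
    rw [abs_sub_comm, abs_of_nonneg (sub_nonneg.2 (le_max_left _ _)), sub_le_iff_le_add]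
    exact max_le (by linarith) (by linarith)
  have c4 := hlip x0 x1 a1 a2 (by linarith) c2 c3
  have c5 : cos (arccos x1) = x1 := cos_arccos (by linarith [h.lt_one]) c2
  have hB0 : 0 ≤ B := (abs_nonneg _).trans (h.bound 0 (Nat.zero_le _) 0 (by norm_num) (by norm_num))
  have hτ := h.tau_nonneg
  have key := int_lower (g := fun θ => p.eval (cos θ) * F (cos θ)) (by fun_prop)
    (2 * (n + 1) * B * sig ρ p * τ) (arccos x1 - l) l (sig ρ p / 2 * a) g0.le
    (by linarith [arccos_nonneg x1, pi_gt_three]) (by linarith [arccos_le_pi x1]) (by positivity)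
    (fun θ => by
      rcases le_total (cos θ) (1 - 2 * ρ) with d | d
      · have d1 := pos_bound hρ n p hp hp0 (cos θ) B fun m hm =>
          h.bound m hm _ (neg_one_le_cos θ) (cos_le_one θ)
        have d2 : |p.eval (cos θ) * F (cos θ)| ≤ 2 * (n + 1) * B * sig ρ p * τ := by
          rw [abs_mul, abs_of_nonneg (h.nonneg _)]
          exact mul_le_mul d1 (h.off _ d) (h.nonneg _) (by positivity)
        exact (abs_le.1 d2).1
      · have d1 := mul_nonneg (hp0 _ d (cos_le_one θ)) (h.nonneg (cos θ))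
        have d2 : 0 ≤ 2 * (n + 1) * B * sig ρ p * τ := by positivity
        linarith)
    (fun θ e1 e2 => by
      have d1 : 1 - 2 * ρ + l ≤ cos θ := by
        rcases le_total 0 θ with d | d
        · have := cos_le_cos_of_nonneg_of_le_pi d (arccos_le_pi x1) (by linarith)
          linarith
        · have := half_le_cos (θ := θ) (abs_le.2 ⟨by linarith [arccos_nonneg x1], by linarith⟩)
          linarith [h.half]
      have d2 : |x1 - cos θ| ≤ l := by
        rw [← c5]
        refine (abs_cos_sub_cos_le _ _).trans (abs_le.2 ⟨?_, ?_⟩) <;> linarith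
      have d3 := hlip x1 (cos θ) (by linarith) c2 (by linarith) (cos_le_one θ) d2
      have d4 : sig ρ p / 2 ≤ p.eval (cos θ) := by
        linarith [(abs_le.1 c4).2, (abs_le.1 d3).2]
      exact mul_le_mul d4 (h.on _ d1) h.pos.le (by linarith))
  rw [← muF_apply F hF] at key
  have e1 : 128 * (n : ℝ) ^ 3 * (l * (sig ρ p / 2 * a)) = 2 * (a * sig ρ p) := by
    rw [hl]
    field_simp
    ring
  have e2 := mul_le_mul_of_nonneg_right h.small hs
  have e3 : 128 * (n : ℝ) ^ 3 * (2 * π * (2 * (n + 1) * B * sig ρ p * τ)) ≤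
      128 * (n : ℝ) ^ 3 * (2 * 4 * (2 * (n + 1) * B * sig ρ p * τ)) := by
    gcongr
    exact pi_le_four
  have e4 := mul_le_mul_of_nonneg_left key (show 0 ≤ 128 * (n : ℝ) ^ 3 by positivity)
  rw [mul_sub, e1] at e4
  linarith

lemma Level.quad (h : Level F ρ n a τ B) (hF : Continuous F) (N : ℕ)
    (hN : 100000 * (n : ℝ) ^ 6 ≤ N * a) :
    ∃ Θ : Multiset ℝ, Multiset.card Θ = N ∧
      (∀ q : ℝ[X], q.natDegree ≤ n →
        (Θ.map fun θ => q.eval (cos θ)).sum = N / muF F hF 1 * muF F hF q) ∧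
      ∀ t : ℝ, (Θ.map fun θ => sin (t * θ)).sum = 0 := by
  have hρ : 0 < ρ := by linarith [h.half]
  have hn1 : (1 : ℝ) ≤ n := by exact_mod_cast h.one_le
  have hA1 := h.total_le hF
  have hA0 : 0 < muF F hF 1 := by linarith [h.total_ge hF, h.pos]
  set A := muF F hF 1 with hA
  have hdiv : (N : ℝ) = 2 * (N / 2 : ℕ) + (N % 2 : ℕ) := by
    exact_mod_cast (Nat.div_add_mod N 2).symm
  have he1 : ((N % 2 : ℕ) : ℝ) ≤ 1 := by
    have : N % 2 ≤ 1 := by omega
    exact_mod_cast this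
  have he0 : (0 : ℝ) ≤ (N % 2 : ℕ) := Nat.cast_nonneg _
  let Λ : ℝ[X] →ₗ[ℝ] ℝ := (N / (2 * A)) • muF F hF - (((N % 2 : ℕ) : ℝ) / 2) • leval 1
  have hΛ : ∀ q, Λ q = N / (2 * A) * muF F hF q - ((N % 2 : ℕ) : ℝ) / 2 * q.eval 1 := fun q => by
    simp [Λ]
  obtain ⟨Y, y1, y2, y3⟩ := gen_quad hρ n (N / 2) h.one_le Λ (by
    rw [hΛ, ← hA, eval_one]
    field_simp
    linarith) (by
    intro p hp hp0
    have hs := sig_nonneg hρ.le p hp0
    have a1 := h.low hF p hp hp0
    have a2 := pos_bound hρ n p hp hp0 1 1 fun m _ => abs_Ub_le hρ m 1 (by linarith) le_rfl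
    have hn3 : (0 : ℝ) < (n : ℝ) ^ 3 := by positivity
    have hμ : 0 ≤ muF F hF p := by
      refine nonneg_of_mul_nonneg_right ?_ (show 0 < 128 * (n : ℝ) ^ 3 by positivity)
      exact (mul_nonneg h.pos.le hs).trans a1
    have a3 : (N : ℝ) / 32 * muF F hF p ≤ N / (2 * A) * muF F hF p :=
      mul_le_mul_of_nonneg_right
        (div_le_div_of_nonneg_left (Nat.cast_nonneg N) (by positivity) (by linarith)) hμ
    have a4 : 21 * (n : ℝ) ^ 3 * sig ρ p ≤ (N : ℝ) / 32 * muF F hF p := by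
      refine le_of_mul_le_mul_left ?_ (show 0 < 128 * (n : ℝ) ^ 3 by positivity)
      have b1 := mul_le_mul_of_nonneg_left a1 (Nat.cast_nonneg N : (0 : ℝ) ≤ N)
      have b2 := mul_le_mul_of_nonneg_right hN hs
      have b3 : 0 ≤ (n : ℝ) ^ 6 * sig ρ p := by positivity
      nlinarith
    have a5 : ((N % 2 : ℕ) : ℝ) / 2 * p.eval 1 ≤ 1 / 2 * (2 * (n + 1) * 1 * sig ρ p) :=
      mul_le_mul (by linarith) ((le_abs_self _).trans a2) (hp0 1 (by linarith) le_rfl)
        (by norm_num)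
    have a6 : ((n : ℝ) + 1) * sig ρ p ≤ 2 * (n : ℝ) ^ 3 * sig ρ p := by
      refine mul_le_mul_of_nonneg_right ?_ hs
      have : (n : ℝ) ≤ (n : ℝ) ^ 3 := le_self_pow₀ hn1 (by norm_num)
      linarith
    rw [hΛ]
    linarith)
  obtain ⟨Θ, t1, t2, t3⟩ := sym_nodes Y (fun x hx =>
    ⟨by linarith [(y2 x hx).1, h.lt_one], (y2 x hx).2⟩) (N % 2)
  refine ⟨Θ, ?_, fun q hq => ?_, t3⟩
  · rw [t1, y1]
    exact Nat.div_add_mod N 2
  · rw [t2 (fun x => q.eval x), y3 q hq, hΛ]
    field_simp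
    ring

lemma Level.test (h : Level F ρ n a τ B) (hF : Continuous F) :
    muF F hF (tq n) ≤ 2 * (ρ ^ n * muF F hF 1) := by
  have hρ : 0 < ρ := by linarith [h.half]
  have hτ := h.tau_nonneg
  have hr := pow_pos hρ n
  have a1 := intervalIntegral.integral_mono_on
    (f := fun θ => (tq n).eval (cos θ) * F (cos θ)) (g := fun θ => ρ ^ n * F (cos θ) + τ)
    (μ := volume) (show -π ≤ π by linarith [pi_pos])
    (Continuous.intervalIntegrable (by fun_prop) _ _)
    (Continuous.intervalIntegrable (by fun_prop) _ _) fun θ _ => by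
      have b0 : 0 ≤ (1 - cos θ) / 2 := by linarith [cos_le_one θ]
      have b1 := h.nonneg (cos θ)
      rw [tq_eval]
      rcases le_total (cos θ) (1 - 2 * ρ) with d | d
      · have b2 : ((1 - cos θ) / 2) ^ n ≤ 1 := pow_le_one₀ b0 (by linarith [neg_one_le_cos θ])
        have b3 := mul_le_mul b2 (h.off _ d) b1 zero_le_one
        have b4 := mul_nonneg hr.le b1
        linarith
      · have b2 : ((1 - cos θ) / 2) ^ n ≤ ρ ^ n := pow_le_pow_left₀ b0 (by linarith) n
        have b3 := mul_le_mul_of_nonneg_right b2 b1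
        linarith
  rw [intervalIntegral.integral_add (Continuous.intervalIntegrable (by fun_prop) _ _)
    (Continuous.intervalIntegrable (by fun_prop) _ _), intervalIntegral.integral_const_mul,
    ← muF_one F hF, ← muF_apply F hF] at a1
  simp only [intervalIntegral.integral_const, smul_eq_mul] at a1
  have a2 := mul_le_mul_of_nonneg_left (h.total_ge hF) hr.le
  have a3 := mul_le_mul_of_nonneg_right pi_le_four hτ
  linarith [h.small']

end Pool.Agent.P.MP_8220a0_an
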