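import Pool.Agent.P.MP_8220a0_an.Low

/-!
The smooth monotone profile: a rapidly convergent sum of steep smooth steps.
-/

namespace Pool.Agent.P.MP_8220a0_an

open Polynomial Finset Real MeasureTheory Filter Topology

lemma step_bound (m : ℕ) : ∃ K : ℝ, 0 ≤ K ∧ ∀ x, |iteratedDeriv m smoothTransition x| ≤ K := by
  have hc : Continuous (iteratedDeriv m smoothTransition) :=
    (smoothTransition.contDiff (n := m)).continuous_iteratedDeriv m le_rfl
  obtain ⟨K, hK⟩ := (isCompact_Icc (a := (0 : ℝ)) (b := 1)).exists_bound_of_continuousOn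
    hc.continuousOn
  refine ⟨|K| + 1, by positivity, fun x => ?_⟩
  have hK0 := abs_nonneg K
  rcases lt_or_ge x 0 with h | h
  · have e : smoothTransition =ᶠ[𝓝 x] fun _ => (0 : ℝ) := by
      filter_upwards [Iio_mem_nhds h] with y hy
      exact smoothTransition.zero_of_nonpos (le_of_lt hy)
    rw [e.iteratedDeriv_eq m, iteratedDeriv_const]
    split_ifs <;> simp only [abs_zero] <;> linarith
  rcases lt_or_ge 1 x with h1 | h1
  · have e : smoothTransition =ᶠ[𝓝 x] fun _ => (1 : ℝ) := by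
      filter_upwards [Ioi_mem_nhds h1] with y hy
      exact smoothTransition.one_of_one_le (le_of_lt hy)
    rw [e.iteratedDeriv_eq m, iteratedDeriv_const]
    split_ifs
    · rw [abs_one]
      linarith
    · rw [abs_zero]
      linarith
  · have := hK x ⟨h, h1⟩
    rw [Real.norm_eq_abs] at this
    linarith [le_abs_self K]

/-- A steep smooth step. -/
noncomputable def stp (a d c x : ℝ) : ℝ := a * smoothTransition (d * (x - c))

lemma stp_contDiff (a d c : ℝ) (m : ℕ∞) : ContDiff ℝ m (stp a d c) := by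
  unfold stp
  exact contDiff_const.mul (smoothTransition.contDiff.comp (by fun_prop))

lemma stp_deriv {a d : ℝ} (ha : 0 ≤ a) (hd : 0 ≤ d) (c : ℝ) (m : ℕ) (K : ℝ)
    (hK : ∀ x, |iteratedDeriv m smoothTransition x| ≤ K) (x : ℝ) :
    ‖iteratedFDeriv ℝ m (stp a d c) x‖ ≤ a * d ^ m * K := by
  rw [norm_iteratedFDeriv_eq_norm_iteratedDeriv]
  have h1 : ContDiff ℝ m smoothTransition := smoothTransition.contDiff (n := m)
  have e : stp a d c = fun x => a * (fun z => (fun y => smoothTransition (d * y)) (z - c)) x := rfl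
  have e2 := iteratedDeriv_comp_sub_const m (fun y => smoothTransition (d * y)) c
  rw [iteratedDeriv_comp_const_mul h1] at e2
  rw [e, iteratedDeriv_const_mul_field, e2]
  simp only [Real.norm_eq_abs, abs_mul, abs_of_nonneg ha, abs_of_nonneg (pow_nonneg hd m)]
  rw [mul_assoc]
  gcongr
  exact hK _

lemma stp_nonneg {a : ℝ} (ha : 0 ≤ a) (d c x : ℝ) : 0 ≤ stp a d c x :=
  mul_nonneg ha (smoothTransition.nonneg _)

lemma stp_le {a : ℝ} (ha : 0 ≤ a) (d c x : ℝ) : stp a d c x ≤ a :=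
  mul_le_of_le_one_right ha (smoothTransition.le_one _)

lemma half_le_rr (j : ℕ) : 1 / 2 ≤ rr j := by
  have := rr_mono (Nat.zero_le j)
  norm_num [rr] at this ⊢
  linarith

lemma exists_step' (K : ℕ → ℝ) (k : ℕ) (y : ℝ) : ∃ (n : ℕ) (a y' : ℝ), 0 < y →
    k + 1 ≤ n ∧ 0 < a ∧ a ≤ y ∧ 0 < y' ∧ y' ≤ a / 2 ∧
    (∀ m, m ≤ k → a * (32 * (n : ℝ) ^ 3) ^ m * K m ≤ (1 / 2) ^ k) ∧
    (∃ B : ℝ, 0 ≤ B ∧ (∀ m, m ≤ n → ∀ z, -1 ≤ z → z ≤ 1 → |(Ub (rr k) m).eval z| ≤ B) ∧
      2 * y' * B * (2 * (n + 1)) * (1024 * (n : ℝ) ^ 3) ≤ a) ∧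
    4 * (2 * y') ≤ rr k ^ n * a ∧
    (100001 * (n : ℝ) ^ 6 / a) ^ (k + 1) * ((k + 1) * (4 * rr k ^ n)) ≤ 1 := by
  by_cases hy : 0 < y
  swap
  · exact ⟨0, 0, 0, fun h => (hy h).elim⟩
  have hr0 := rr_pos k
  have hr1 := rr_lt_one k
  set b : ℝ := ((1 + rr k) / 2) ^ (((k + 1 : ℕ) : ℝ)⁻¹) with hb
  have hb0 : 0 < b := rpow_pos_of_pos (by linarith) _
  have hb1 : b < 1 := rpow_lt_one (by linarith) (by linarith) (by positivity)
  have hbk : b ^ (k + 1) = (1 + rr k) / 2 := rpow_inv_natCast_pow (by linarith) (by omega)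
  have hba : |b| < 1 := by rwa [abs_of_pos hb0]
  have t1 := (tendsto_pow_atTop_nhds_zero_of_lt_one hb0.le hb1).eventually_lt_const hy
  have t2 : ∀ᶠ n : ℕ in atTop, ∀ m ∈ range (k + 1),
      (32 ^ m * K m) * ((n : ℝ) ^ (3 * m) * b ^ n) < (1 / 2) ^ k := by
    refine (eventually_all_finset _).2 fun m _ => ?_
    have := (tendsto_pow_const_mul_const_pow_of_abs_lt_one (3 * m) hba).const_mul (32 ^ m * K m)
    rw [mul_zero] at this
    exact this.eventually_lt_const (by positivity)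
  have t3 : ∀ᶠ n : ℕ in atTop, (100001 ^ (k + 1) * (((k : ℝ) + 1) * 4)) *
      ((n : ℝ) ^ (6 * (k + 1)) * (rr k / b ^ (k + 1)) ^ n) < 1 := by
    have h : |rr k / b ^ (k + 1)| < 1 := by
      rw [abs_of_pos (by positivity), div_lt_one (by positivity), hbk]
      linarith
    have := (tendsto_pow_const_mul_const_pow_of_abs_lt_one (6 * (k + 1)) h).const_mul
      (100001 ^ (k + 1) * (((k : ℝ) + 1) * 4))
    rw [mul_zero] at this
    exact this.eventually_lt_const one_pos
  obtain ⟨n, ⟨⟨h1, h2⟩, h3⟩, h4⟩ := (((t1.and t2).and t3).and (eventually_ge_atTop (k + 1))).exists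
  have hB : ∀ m : ℕ, ∃ B, ∀ z, -1 ≤ z → z ≤ 1 → |(Ub (rr k) m).eval z| ≤ B := fun m => by
    obtain ⟨B, hB⟩ := (isCompact_Icc (a := (-1 : ℝ)) (b := 1)).exists_bound_of_continuousOn
      (Ub (rr k) m).continuous.continuousOn
    exact ⟨B, fun z h1 h2 => hB z ⟨h1, h2⟩⟩
  choose β hβ using hB
  set B := 1 + ∑ m ∈ range (n + 1), |β m| with hBd
  have hB0 : 0 < B := by positivity
  have hnr : (0 : ℝ) < n := by exact_mod_cast (by omega : 0 < n)
  have hr := pow_pos hr0 n
  have ha := pow_pos hb0 n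
  set D := 2 * B * (2 * (n + 1)) * (1024 * (n : ℝ) ^ 3) with hD
  have hD0 : 0 < D := by positivity
  refine ⟨n, b ^ n, min (b ^ n / 2) (min (b ^ n / D) (rr k ^ n * b ^ n / 8)), fun _ =>
    ⟨h4, ha, h1.le, by positivity, min_le_left _ _, fun m hm => ?_,
      ⟨B, hB0.le, fun m hm z a1 a2 => ?_, ?_⟩, ?_, ?_⟩⟩
  · refine le_trans (le_of_eq ?_) (h2 m (mem_range.2 (by omega))).le
    rw [mul_pow, ← pow_mul]
    ring
  · have := single_le_sum (f := fun m => |β m|) (fun _ _ => abs_nonneg _)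
      (mem_range.2 (show m < n + 1 by omega))
    linarith [hβ m z a1 a2, le_abs_self (β m)]
  · have h5 : min (b ^ n / 2) (min (b ^ n / D) (rr k ^ n * b ^ n / 8)) ≤ b ^ n / D :=
      (min_le_right _ _).trans (min_le_left _ _)
    rw [le_div_iff₀ hD0, hD] at h5
    linarith
  · have h5 : min (b ^ n / 2) (min (b ^ n / D) (rr k ^ n * b ^ n / 8)) ≤ rr k ^ n * b ^ n / 8 :=
      (min_le_right _ _).trans (min_le_right _ _)
    linarith
  · refine le_trans (le_of_eq ?_) h3.le
    rw [div_pow, div_pow, mul_pow, ← pow_mul, ← pow_mul, ← pow_mul, mul_comm (k + 1) n]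
    field_simp

theorem exists_profile : ∃ F : ℝ → ℝ, (∀ m : ℕ, ContDiff ℝ m F) ∧ Monotone F ∧
    (∀ x, -1 < x → 0 < F x) ∧ ∀ k : ℕ, ∃ (n : ℕ) (a τ B : ℝ), k + 1 ≤ n ∧ a ≤ 1 ∧
      Level F (rr k) n a τ B ∧
      (100001 * (n : ℝ) ^ 6 / a) ^ (k + 1) * ((k + 1) * (4 * rr k ^ n)) ≤ 1 := by
  choose K hK0 hK using step_bound
  choose N A Y hs using exists_step' K
  let y : ℕ → ℝ := fun k => Nat.rec 1 Y k
  have hy : ∀ k, 0 < y k := by
    intro k
    induction k with
    | zero => exact one_pos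
    | succ k ih => exact (hs k _ ih).2.2.2.1
  let a : ℕ → ℝ := fun k => A k (y k)
  let n : ℕ → ℕ := fun k => N k (y k)
  have hn : ∀ k, k + 1 ≤ n k := fun k => (hs k _ (hy k)).1
  have ha : ∀ k, 0 < a k := fun k => (hs k _ (hy k)).2.1
  have hay : ∀ k, a k ≤ y k := fun k => (hs k _ (hy k)).2.2.1
  have hya : ∀ k, y (k + 1) ≤ a k / 2 := fun k => (hs k _ (hy k)).2.2.2.2.1
  have hgeom : ∀ k i, a (i + k) ≤ y k * (1 / 2) ^ i := by
    intro k i
    induction i with
    | zero => simpa using hay k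
    | succ i ih =>
      have h1 := hay (i + k + 1)
      have h2 := hya (i + k)
      rw [show i + 1 + k = i + k + 1 by ring, pow_succ]
      linarith
  let d : ℕ → ℝ := fun k => 32 * (n k : ℝ) ^ 3
  have hd : ∀ k, 0 < d k := fun k => by
    have : (0 : ℝ) < n k := by exact_mod_cast lt_of_lt_of_le (Nat.succ_pos k) (hn k)
    positivity
  let f : ℕ → ℝ → ℝ := fun j => stp (a j) (d j) (1 - 2 * rr j)
  have hf0 : ∀ j x, 0 ≤ f j x := fun j x => stp_nonneg (ha j).le _ _ _
  have hf1 : ∀ k i x, f (i + k) x ≤ y k * (1 / 2) ^ i := fun k i x =>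
    (stp_le (ha _).le _ _ _).trans (hgeom k i)
  have hsum : ∀ k x, Summable fun i => f (i + k) x := fun k x =>
    Summable.of_nonneg_of_le (fun _ => hf0 _ _) (fun i => hf1 k i x)
      (summable_geometric_two.mul_left _)
  have htail : ∀ k x, ∑' i, f (i + k) x ≤ 2 * y k := fun k x => by
    refine ((hsum k x).tsum_le_tsum (fun i => hf1 k i x)
      (summable_geometric_two.mul_left _)).trans ?_
    rw [tsum_mul_left, tsum_geometric_two, mul_comm]
  have hsum0 : ∀ x, Summable fun i => f i x := fun x => by simpa using hsum 0 x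
  refine ⟨fun x => ∑' i, f i x, fun m => ?_, fun x z hxz => ?_, fun x hx => ?_, fun k => ?_⟩
  · refine contDiff_tsum_of_eventually (N := (m : ℕ∞)) (v := fun _ i => (1 / 2 : ℝ) ^ i)
      (fun i => stp_contDiff _ _ _ _) (fun _ _ => summable_geometric_two) fun l _ => ?_
    rw [Nat.cofinite_eq_atTop]
    filter_upwards [eventually_ge_atTop l] with i hi x
    exact (stp_deriv (ha i).le (hd i).le _ l (K l) (hK l) x).trans
      ((hs i _ (hy i)).2.2.2.2.2.1 l hi)
  · refine (hsum0 x).tsum_le_tsum (fun i => ?_) (hsum0 z)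
    refine mul_le_mul_of_nonneg_left (smoothTransition.monotone ?_) (ha i).le
    exact mul_le_mul_of_nonneg_left (by linarith) (hd i).le
  · obtain ⟨j, hj⟩ := exists_rr hx
    exact (hsum0 x).tsum_pos (fun i => hf0 i x) j
      (mul_pos (ha j) (smoothTransition.pos_of_pos (mul_pos (hd j) hj)))
  · obtain ⟨-, -, -, -, -, -, ⟨B, b0, b1, b2⟩, b3, b4⟩ := hs k _ (hy k)
    refine ⟨n k, a k, 2 * y (k + 1), B, hn k, ?_, ⟨fun x => tsum_nonneg fun i => hf0 i x,
      fun x => ?_, half_le_rr k, le_trans (by omega) (hn k), ha k, fun x hx => ?_, fun x hx => ?_,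
      b1, b2, b3, rr_lt_one k⟩, b4⟩
    · have h1 := hgeom 0 k
      have h2 : ((1 : ℝ) / 2) ^ k ≤ 1 := pow_le_one₀ (by norm_num) (by norm_num)
      have h3 : y 0 = 1 := rfl
      rw [h3, one_mul, add_zero] at h1
      exact h1.trans h2
    · have h1 := htail 0 x
      have h3 : y 0 = 1 := rfl
      rw [h3, mul_one] at h1
      simpa using h1
    · have h1 := (hsum0 x).sum_add_tsum_nat_add (k + 1)
      have h2 : ∑ i ∈ range (k + 1), f i x = 0 := sum_eq_zero fun i hi => by
        rw [mem_range] at hi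
        have := rr_mono (show i ≤ k by omega)
        show a i * smoothTransition _ = 0
        rw [smoothTransition.zero_of_nonpos
          (mul_nonpos_of_nonneg_of_nonpos (hd i).le (by linarith)), mul_zero]
      have h3 := htail (k + 1) x
      show ∑' i, f i x ≤ _
      linarith
    · have h1 : f k x = a k := by
        show a k * smoothTransition _ = _
        rw [smoothTransition.one_of_one_le, mul_one]
        rw [← div_le_iff₀' (hd k)]
        show 1 / (32 * (n k : ℝ) ^ 3) ≤ _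
        linarith
      rw [← h1]
      exact (hsum0 x).le_tsum k fun j _ => hf0 j x

end Pool.Agent.P.MP_8220a0_an
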