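import Pool.Agent.P.MP_8220a0_an.Arc

/-!
The weight: a rapidly convergent sum of arcsine weights of arcs exhausting the circle.
-/

namespace Pool.Agent.P.MP_8220a0_an

open Polynomial Finset Real MeasureTheory Filter Topology

/-- Parameters of the arcs. -/
noncomputable def rr (j : ℕ) : ℝ := 1 - 1 / ((j : ℝ) + 2)

lemma rr_pos (j : ℕ) : 0 < rr j := by
  unfold rr
  have : 1 / ((j : ℝ) + 2) < 1 := by
    rw [div_lt_one (by positivity)]
    have : (0 : ℝ) ≤ j := Nat.cast_nonneg j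
    linarith
  linarith

lemma rr_lt_one (j : ℕ) : rr j < 1 := by
  unfold rr
  have : 0 < 1 / ((j : ℝ) + 2) := by positivity
  linarith

lemma rr_mono {i j : ℕ} (h : i ≤ j) : rr i ≤ rr j := by
  unfold rr
  have : (i : ℝ) ≤ j := by exact_mod_cast h
  have : 1 / ((j : ℝ) + 2) ≤ 1 / ((i : ℝ) + 2) := by gcongr
  linarith

lemma exists_rr {c : ℝ} (hc : -1 < c) : ∃ j, 0 < c - (1 - 2 * rr j) := by
  obtain ⟨j, hj⟩ := exists_nat_one_div_lt (show 0 < (1 + c) / 2 by linarith)
  refine ⟨j, ?_⟩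
  unfold rr
  have : 1 / ((j : ℝ) + 2) ≤ 1 / ((j : ℝ) + 1) := by gcongr; norm_num
  linarith

/-- Admissible coefficient sequences. -/
structure Adm (a : ℕ → ℝ) : Prop where
  zero : a 0 = 1
  pos : ∀ j, 0 < a j
  half : ∀ j, a (j + 1) ≤ a j / 2

lemma Adm.le_geom {a : ℕ → ℝ} (h : Adm a) (k i : ℕ) : a (i + k) ≤ a k * (1 / 2) ^ i := by
  induction i with
  | zero => simp
  | succ i ih =>
    have := h.half (i + k)
    rw [show i + 1 + k = i + k + 1 by ring, pow_succ]
    linarith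

lemma Adm.anti {a : ℕ → ℝ} (h : Adm a) {i j : ℕ} (hij : i ≤ j) : a j ≤ a i := by
  refine antitone_nat_of_succ_le (fun k => ?_) hij
  have := h.half k
  have := h.pos k
  linarith

lemma Adm.summable_add {a : ℕ → ℝ} (h : Adm a) (k : ℕ) : Summable fun i => a (i + k) :=
  Summable.of_nonneg_of_le (fun _ => (h.pos _).le) (h.le_geom k)
    (summable_geometric_two.mul_left _)

lemma Adm.summable {a : ℕ → ℝ} (h : Adm a) : Summable a := by simpa using h.summable_add 0

lemma Adm.tail_le {a : ℕ → ℝ} (h : Adm a) (k : ℕ) : ∑' i, a (i + k) ≤ 2 * a k := by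
  refine ((h.summable_add k).tsum_le_tsum (h.le_geom k) (summable_geometric_two.mul_left _)).trans ?_
  rw [tsum_mul_left, tsum_geometric_two, mul_comm]

lemma Adm.tsum_le {a : ℕ → ℝ} (h : Adm a) : ∑' i, a i ≤ 2 := by
  simpa [h.zero] using h.tail_le 0

lemma Adm.sum_le {a : ℕ → ℝ} (h : Adm a) (k : ℕ) : ∑ j ∈ range k, a j ≤ ∑' i, a i :=
  h.summable.sum_le_tsum _ fun j _ => (h.pos j).le

lemma Adm.one_le {a : ℕ → ℝ} (h : Adm a) : 1 ≤ ∑' i, a i := by
  simpa [h.zero] using h.sum_le 1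

/-- The weight. -/
noncomputable def Wt (a : ℕ → ℝ) (θ : ℝ) : ℝ := ∑' j, a j * Wr (rr j) θ

lemma Wt_summable {a : ℕ → ℝ} (h : Adm a) (θ : ℝ) : Summable fun j => a j * Wr (rr j) θ := by
  rcases eq_or_lt_of_le (neg_one_le_cos θ) with h0 | h0
  · have : ∀ j, Wr (rr j) θ = 0 := fun j => by simp [Wr, ← h0]
    simp only [this, mul_zero]
    exact summable_zero
  · obtain ⟨k, hk⟩ := exists_rr h0
    rw [← summable_nat_add_iff k]
    refine Summable.of_nonneg_of_le (fun i => mul_nonneg (h.pos _).le (Wr_nonneg _ _))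
      (fun i => ?_) ((h.summable_add k).mul_right (Wr (rr k) θ))
    refine mul_le_mul_of_nonneg_left (sqrt_le_sqrt ?_) (h.pos _).le
    have := rr_mono (show k ≤ i + k by omega)
    exact div_le_div_of_nonneg_left (by linarith) hk (by linarith)

lemma Wt_nonneg {a : ℕ → ℝ} (h : Adm a) (θ : ℝ) : 0 ≤ Wt a θ :=
  tsum_nonneg fun _ => mul_nonneg (h.pos _).le (Wr_nonneg _ _)

lemma Wt_pos {a : ℕ → ℝ} (h : Adm a) {θ : ℝ} (hθ : cos θ ≠ -1) : 0 < Wt a θ := by
  have h0 : -1 < cos θ := lt_of_le_of_ne (neg_one_le_cos θ) hθ.symm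
  obtain ⟨k, hk⟩ := exists_rr h0
  refine (Wt_summable h θ).tsum_pos (fun _ => mul_nonneg (h.pos _).le (Wr_nonneg _ _)) k ?_
  exact mul_pos (h.pos k) (sqrt_pos.2 (div_pos (by linarith) hk))

lemma Wt_ae {a : ℕ → ℝ} (h : Adm a) : ∀ᵐ θ, Wt a θ ≠ 0 := by
  have hc : (Set.range fun t : ℤ => π + t * (2 * π)).Countable := Set.countable_range _
  filter_upwards [hc.ae_notMem volume] with θ hθ
  refine (Wt_pos h fun h' => hθ ?_).ne'
  obtain ⟨t, ht⟩ := cos_eq_neg_one_iff.1 h'
  exact ⟨t, ht⟩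

lemma Wt_measurable {a : ℕ → ℝ} (h : Adm a) : Measurable (Wt a) := by
  refine measurable_of_tendsto_metrizable
    (f := fun n θ => ∑ j ∈ range n, a j * Wr (rr j) θ) (fun n => ?_) ?_
  · exact Finset.measurable_sum _ fun j _ => (Wr_measurable _).const_mul _
  · exact tendsto_pi_nhds.2 fun θ => (Wt_summable h θ).hasSum.tendsto_sum_nat

lemma Wt_neg (a : ℕ → ℝ) (θ : ℝ) : Wt a (-θ) = Wt a θ := by simp only [Wt, Wr, cos_neg]

lemma Wt_periodic (a : ℕ → ℝ) : Function.Periodic (Wt a) (2 * π) := fun θ => by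
  simp only [Wt, Wr, cos_add_two_pi]

lemma exists_bound (g : ℝ → ℝ) (hg : Continuous g) : ∃ B, ∀ θ, |g (cos θ)| ≤ B := by
  obtain ⟨B, hB⟩ := (isCompact_Icc (a := (-1 : ℝ)) (b := 1)).exists_bound_of_continuousOn
    hg.continuousOn
  exact ⟨B, fun θ => hB _ ⟨neg_one_le_cos θ, cos_le_one θ⟩⟩

lemma hasSum_Wt {a : ℕ → ℝ} (h : Adm a) (g : ℝ → ℝ) (hg : Continuous g) :
    HasSum (fun j => a j * ∫ φ in (0 : ℝ)..π, g (1 - rr j + rr j * cos φ))
      (∫ θ in Set.Ioo 0 π, g (cos θ) * Wt a θ) := by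
  obtain ⟨B, hB⟩ := exists_bound g hg
  have hI := fun j => arc_integral (rr_pos j) (rr_lt_one j) g hg
  have hI1 := fun j => arc_integral (rr_pos j) (rr_lt_one j) (fun _ => 1) continuous_const
  simp only [one_mul, intervalIntegral.integral_const, sub_zero, smul_eq_mul, mul_one] at hI1
  have key := hasSum_integral_of_summable_integral_norm (μ := volume.restrict (Set.Ioo 0 π))
    (F := fun j θ => a j * (g (cos θ) * Wr (rr j) θ)) (fun j => (hI j).1.const_mul _) (by
      refine Summable.of_nonneg_of_le (fun j => integral_nonneg fun _ => norm_nonneg _)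
        (fun j => ?_) (h.summable.mul_right (B * π))
      have e : a j * (B * π) = ∫ θ in Set.Ioo 0 π, a j * (B * Wr (rr j) θ) := by
        rw [integral_const_mul, integral_const_mul, (hI1 j).2]
      rw [e]
      refine integral_mono ((hI j).1.const_mul _).norm (((hI1 j).1.const_mul _).const_mul _)
        fun θ => ?_
      show ‖a j * (g (cos θ) * Wr (rr j) θ)‖ ≤ a j * (B * Wr (rr j) θ)
      rw [Real.norm_eq_abs, abs_mul, abs_mul, abs_of_pos (h.pos j), abs_of_nonneg (Wr_nonneg _ _)]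
      exact mul_le_mul_of_nonneg_left (mul_le_mul_of_nonneg_right (hB θ) (Wr_nonneg _ _))
        (h.pos j).le)
  simp only [integral_const_mul, (hI _).2] at key
  have e : (fun θ => g (cos θ) * Wt a θ) =
      fun θ => ∑' j, a j * (g (cos θ) * Wr (rr j) θ) := by
    ext θ
    rw [Wt, ← tsum_mul_left]
    congr 1
    ext j
    ring
  rw [e]
  exact key

lemma Wt_integral {a : ℕ → ℝ} (h : Adm a) : ∫ θ in Set.Ioo 0 π, Wt a θ = (∑' j, a j) * π := by
  have := hasSum_Wt h (fun _ => 1) continuous_const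
  simp only [one_mul, intervalIntegral.integral_const, sub_zero, smul_eq_mul, mul_one] at this
  rw [← this.tsum_eq, tsum_mul_right]

lemma Wt_integrableOn {a : ℕ → ℝ} (h : Adm a) : IntegrableOn (Wt a) (Set.Ioo 0 π) := by
  refine Integrable.of_integral_ne_zero ?_
  rw [Wt_integral h]
  have := h.one_le
  have := pi_pos
  positivity

lemma Wt_intervalIntegrable {a : ℕ → ℝ} (h : Adm a) : IntervalIntegrable (Wt a) volume (-π) π := by
  have h1 : IntervalIntegrable (Wt a) volume 0 π :=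
    (intervalIntegrable_iff_integrableOn_Ioo_of_le pi_pos.le).2 (Wt_integrableOn h)
  have h2 := (IntervalIntegrable.iff_comp_neg (f := Wt a) (a := 0) (b := π)).1 h1
  simp only [Wt_neg, neg_zero] at h2
  exact h2.symm.trans h1

lemma integral_even {a : ℕ → ℝ} (h : Adm a) (g : ℝ → ℝ) (hg : Continuous g) :
    ∫ θ in (-π)..π, g (cos θ) * Wt a θ = 2 * ∫ θ in Set.Ioo 0 π, g (cos θ) * Wt a θ := by
  have hI : IntervalIntegrable (fun θ => g (cos θ) * Wt a θ) volume (-π) π :=
    (Wt_intervalIntegrable h).continuousOn_mul (by fun_prop)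
  have hm : (0 : ℝ) ∈ Set.uIcc (-π) π := by
    rw [Set.uIcc_of_le (by linarith [pi_pos])]
    exact ⟨by linarith [pi_pos], pi_pos.le⟩
  obtain ⟨h1, h2⟩ := (IntervalIntegrable.trans_iff hm).1 hI
  rw [← intervalIntegral.integral_add_adjacent_intervals h1 h2]
  have h3 := intervalIntegral.integral_comp_neg (a := 0) (b := π)
    (fun θ => g (cos θ) * Wt a θ)
  simp only [cos_neg, Wt_neg, neg_zero] at h3
  rw [← h3, intervalIntegral.integral_of_le pi_pos.le, integral_Ioc_eq_integral_Ioo]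
  ring

lemma integral_odd (a : ℕ → ℝ) (t : ℝ) : ∫ θ in (-π)..π, sin (t * θ) * Wt a θ = 0 := by
  have h3 := intervalIntegral.integral_comp_neg (a := -π) (b := π)
    (fun θ => sin (t * θ) * Wt a θ)
  simp only [mul_neg, sin_neg, Wt_neg, neg_neg, neg_mul, intervalIntegral.integral_neg] at h3
  linarith

/-- The moment functional of the weight. -/
noncomputable def mu {a : ℕ → ℝ} (h : Adm a) : ℝ[X] →ₗ[ℝ] ℝ where
  toFun q := (2 * π)⁻¹ * ∫ θ in (-π)..π, q.eval (cos θ) * Wt a θ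
  map_add' p q := by
    simp only [eval_add, add_mul]
    rw [intervalIntegral.integral_add, mul_add]
    · exact (Wt_intervalIntegrable h).continuousOn_mul (by fun_prop)
    · exact (Wt_intervalIntegrable h).continuousOn_mul (by fun_prop)
  map_smul' c q := by
    simp only [eval_smul, smul_eq_mul, mul_assoc, intervalIntegral.integral_const_mul,
      RingHom.id_apply]
    ring

lemma mu_apply {a : ℕ → ℝ} (h : Adm a) (q : ℝ[X]) :
    ∫ θ in (-π)..π, q.eval (cos θ) * Wt a θ = 2 * π * mu h q := by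
  show _ = 2 * π * ((2 * π)⁻¹ * ∫ θ in (-π)..π, q.eval (cos θ) * Wt a θ)
  rw [← mul_assoc, mul_inv_cancel₀ (by positivity), one_mul]

lemma hasSum_mu {a : ℕ → ℝ} (h : Adm a) (q : ℝ[X]) :
    HasSum (fun j => a j * sig (rr j) q) (mu h q) := by
  have h1 := (hasSum_Wt h (fun x => q.eval x) q.continuous).mul_left π⁻¹
  have h2 := integral_even h (fun x => q.eval x) q.continuous
  rw [mu_apply h] at h2
  have h3 : mu h q = π⁻¹ * ∫ θ in Set.Ioo 0 π, q.eval (cos θ) * Wt a θ := by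
    have := pi_pos
    field_simp
    linarith
  have e : (fun j => a j * sig (rr j) q) =
      fun i => π⁻¹ * (a i * ∫ φ in (0 : ℝ)..π, eval (1 - rr i + rr i * cos φ) q) := by
    ext j
    rw [sig_apply]
    ring
  rw [h3, e]
  exact h1

lemma mu_one {a : ℕ → ℝ} (h : Adm a) : mu h 1 = ∑' j, a j := by
  have := hasSum_mu h 1
  simp only [sig_one, mul_one] at this
  exact this.tsum_eq.symm

lemma mu_split {a : ℕ → ℝ} (h : Adm a) (q : ℝ[X]) (k : ℕ) (B : ℝ)
    (hB : ∀ x, -1 ≤ x → x ≤ 1 → |q.eval x| ≤ B) :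
    |mu h q - ∑ j ∈ range k, a j * sig (rr j) q| ≤ 2 * a k * B := by
  have h1 := (hasSum_nat_add_iff' k).2 (hasSum_mu h q)
  have hB0 : 0 ≤ B := (abs_nonneg _).trans (hB 0 (by norm_num) (by norm_num))
  rw [← h1.tsum_eq]
  refine (tsum_of_norm_bounded (f := fun i => a (i + k) * sig (rr (i + k)) q)
    ((h.summable_add k).mul_right B).hasSum fun i => ?_).trans ?_
  · rw [Real.norm_eq_abs, abs_mul, abs_of_pos (h.pos _)]
    refine mul_le_mul_of_nonneg_left (sig_abs_le (rr_pos _).le q B fun x h1 h2 => hB x ?_ h2)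
      (h.pos _).le
    linarith [rr_lt_one (i + k)]
  · rw [tsum_mul_right]
    exact mul_le_mul_of_nonneg_right (h.tail_le k) hB0

end Pool.Agent.P.MP_8220a0_an
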